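import Mathlib

/-!
# The group `G = ⋃ Sym(Q₀ × … × Q_{n-1})` acting on `C = ∏ Q_n`

Combinatorial part of the counterexample for MP_04f1b7_lc.
-/

namespace Pool.Agent.Lib.MP_04f1b7_lc

/-- `Q_n`, a set with `2 ^ (n + 2)` elements. -/
abbrev Q (n : ℕ) : Type := Fin (2 ^ (n + 2))

/-- The product space `C = ∏ Q_n`. -/
abbrev C : Type := ∀ n, Q n

/-- `x` and `y` have the same first `n` coordinates. -/
def Agree (n : ℕ) (x y : C) : Prop := ∀ j < n, x j = y j

theorem Agree.refl (n : ℕ) (x : C) : Agree n x x := fun _ _ => rfl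

theorem Agree.symm {n : ℕ} {x y : C} (h : Agree n x y) : Agree n y x := fun j hj => (h j hj).symm

theorem Agree.trans {n : ℕ} {x y z : C} (h : Agree n x y) (h' : Agree n y z) : Agree n x z :=
  fun j hj => (h j hj).trans (h' j hj)

theorem Agree.mono {m n : ℕ} (hmn : m ≤ n) {x y : C} (h : Agree n x y) : Agree m x y :=
  fun j hj => h j (lt_of_lt_of_le hj hmn)

/-- `g` acts through the first `n` coordinates only. -/
def IsLevel (n : ℕ) (g : Equiv.Perm C) : Prop :=
  (∀ x j, n ≤ j → g x j = x j) ∧ ∀ x y, Agree n x y ↔ Agree n (g x) (g y)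

theorem IsLevel.mono {m n : ℕ} (hmn : m ≤ n) {g : Equiv.Perm C} (h : IsLevel m g) :
    IsLevel n g := by
  refine ⟨fun x j hj => h.1 x j (hmn.trans hj), fun x y => ?_⟩
  constructor
  · intro hxy j hj
    by_cases hjm : j < m
    · exact (h.2 x y).1 (hxy.mono hmn) j hjm
    · rw [h.1 x j (not_lt.1 hjm), h.1 y j (not_lt.1 hjm)]
      exact hxy j hj
  · intro hxy j hj
    by_cases hjm : j < m
    · exact (h.2 x y).2 (hxy.mono hmn) j hjm
    · rw [← h.1 x j (not_lt.1 hjm), ← h.1 y j (not_lt.1 hjm)]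
      exact hxy j hj

theorem IsLevel.one (n : ℕ) : IsLevel n 1 := ⟨fun _ _ _ => rfl, fun _ _ => Iff.rfl⟩

theorem IsLevel.mul {n : ℕ} {g h : Equiv.Perm C} (hg : IsLevel n g) (hh : IsLevel n h) :
    IsLevel n (g * h) := by
  refine ⟨fun x j hj => ?_, fun x y => ?_⟩
  · rw [Equiv.Perm.mul_apply, hg.1 _ j hj, hh.1 x j hj]
  · rw [Equiv.Perm.mul_apply, Equiv.Perm.mul_apply, ← hg.2, ← hh.2]

theorem IsLevel.inv {n : ℕ} {g : Equiv.Perm C} (hg : IsLevel n g) : IsLevel n g⁻¹ := by
  refine ⟨fun x j hj => ?_, fun x y => ?_⟩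
  · have := hg.1 (g⁻¹ x) j hj
    rw [Equiv.Perm.coe_inv, Equiv.apply_symm_apply] at this
    exact this.symm
  · have := hg.2 (g⁻¹ x) (g⁻¹ y)
    rw [Equiv.Perm.coe_inv, Equiv.apply_symm_apply, Equiv.apply_symm_apply] at this
    exact this.symm

/-- The group `G` of all permutations of `C` acting through finitely many coordinates. -/
def Gsub : Subgroup (Equiv.Perm C) where
  carrier := {g | ∃ n, IsLevel n g}
  mul_mem' := by
    rintro g h ⟨m, hm⟩ ⟨n, hn⟩
    exact ⟨max m n, (hm.mono (le_max_left _ _)).mul (hn.mono (le_max_right _ _))⟩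
  one_mem' := ⟨0, IsLevel.one 0⟩
  inv_mem' := by
    rintro g ⟨n, hn⟩
    exact ⟨n, hn.inv⟩

/-- The group `G`. -/
abbrev G : Type := Gsub

/-- The base point of `C`. -/
def base : C := fun n => ⟨0, by positivity⟩

/-- The point `1` of `Q_n`. -/
def oneQ (n : ℕ) : Q n := ⟨1, by
  have : 2 ^ 1 ≤ 2 ^ (n + 2) := Nat.pow_le_pow_right (by norm_num) (by omega)
  omega⟩

theorem base_ne_oneQ (n : ℕ) : base n ≠ oneQ n := by
  intro h
  have := congrArg Fin.val h
  simp [base, oneQ] at this

open Classical in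
/-- The indicator of `x_j = 1` in `ZMod 2`. -/
noncomputable def ind (x : C) (j : ℕ) : ZMod 2 := if x j = oneQ j then 1 else 0

/-- The parity of the number of `j < n` with `x_j = 1`. -/
noncomputable def b (n : ℕ) (x : C) : ZMod 2 := ∑ j ∈ Finset.range n, ind x j

theorem b_congr {n : ℕ} {x y : C} (h : Agree n x y) : b n x = b n y := by
  unfold b
  refine Finset.sum_congr rfl fun j hj => ?_
  unfold ind
  rw [h j (Finset.mem_range.1 hj)]

theorem b_of_le {m n : ℕ} (hmn : m ≤ n) (x : C) :
    b n x = b m x + ∑ j ∈ Finset.Ico m n, ind x j := by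
  unfold b
  rw [Finset.sum_range_add_sum_Ico _ hmn]

/-- `b n (g x) + b n x` does not depend on `n` once `n` is at least the level of `g`. -/
theorem b_add_b_of_le {m n : ℕ} (hmn : m ≤ n) {g : Equiv.Perm C} (hg : IsLevel m g) (x : C) :
    b n (g x) + b n x = b m (g x) + b m x := by
  rw [b_of_le hmn, b_of_le hmn]
  have : ∑ j ∈ Finset.Ico m n, ind (g x) j = ∑ j ∈ Finset.Ico m n, ind x j := by
    refine Finset.sum_congr rfl fun j hj => ?_
    unfold ind
    rw [hg.1 x j (Finset.mem_Ico.1 hj).1]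
  rw [this]
  have h2 : ∀ a : ZMod 2, a + a = 0 := by decide
  calc b m (g x) + ∑ j ∈ Finset.Ico m n, ind x j + (b m x + ∑ j ∈ Finset.Ico m n, ind x j)
      = b m (g x) + b m x + (∑ j ∈ Finset.Ico m n, ind x j + ∑ j ∈ Finset.Ico m n, ind x j) := by
        ring
    _ = b m (g x) + b m x := by rw [h2, add_zero]

/-- a level of `g` -/
noncomputable def lvl (g : G) : ℕ := g.2.choose

theorem isLevel_lvl (g : G) : IsLevel (lvl g) (g : Equiv.Perm C) := g.2.choose_spec

theorem b_base (n : ℕ) : b n base = 0 := by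
  unfold b
  refine Finset.sum_eq_zero fun j _ => ?_
  unfold ind
  rw [if_neg (base_ne_oneQ j)]

/-- The cocycle `c_g(x)`. -/
noncomputable def coc (g : G) (x : C) : ZMod 2 :=
  b (lvl g) ((g : Equiv.Perm C) x) + b (lvl g) x

theorem coc_eq {g : G} {n : ℕ} (hn : IsLevel n (g : Equiv.Perm C)) (x : C) :
    coc g x = b n ((g : Equiv.Perm C) x) + b n x := by
  unfold coc
  rcases le_total (lvl g) n with h | h
  · rw [b_add_b_of_le h (isLevel_lvl g)]
  · rw [b_add_b_of_le h hn]

/-- `κ(g)`, the parity of the number of `j` with `(g • base)_j = 1`. -/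
noncomputable def kap (g : G) : ZMod 2 := coc g base

theorem kap_eq {g : G} {n : ℕ} (hn : IsLevel n (g : Equiv.Perm C)) :
    kap g = b n ((g : Equiv.Perm C) base) := by
  unfold kap
  rw [coc_eq hn, b_base, add_zero]

theorem kap_mul (g z : G) : kap (g * z) = coc g ((z : Equiv.Perm C) base) + kap z := by
  obtain ⟨n, hg, hz⟩ : ∃ n, IsLevel n (g : Equiv.Perm C) ∧ IsLevel n (z : Equiv.Perm C) :=
    ⟨max (lvl g) (lvl z), (isLevel_lvl g).mono (le_max_left _ _),
      (isLevel_lvl z).mono (le_max_right _ _)⟩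
  rw [kap_eq (g := g * z) (n := n) (hg.mul hz), coc_eq hg, kap_eq hz]
  have h2 : ∀ a : ZMod 2, a + a = 0 := by decide
  have h3 : ((g * z : G) : Equiv.Perm C) base =
      (g : Equiv.Perm C) ((z : Equiv.Perm C) base) := rfl
  rw [h3, add_assoc, h2, add_zero]

theorem coc_congr {g : G} {n : ℕ} (hn : IsLevel n (g : Equiv.Perm C)) {x y : C}
    (h : Agree n x y) : coc g x = coc g y := by
  rw [coc_eq hn, coc_eq hn, b_congr h, b_congr ((hn.2 x y).1 h)]

/-! ### Level sets and counting -/

/-- the finite set `Q₀ × … × Q_{n-1}` -/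
abbrev Cn (n : ℕ) : Type := ∀ j : Fin n, Q j

/-- replace the first `n` coordinates of `x` by `a` -/
def splice (n : ℕ) (a : Cn n) (x : C) : C := fun j => if h : j < n then a ⟨j, h⟩ else x j

/-- the first `n` coordinates of `x` -/
def restr (n : ℕ) (x : C) : Cn n := fun j => x j

theorem restr_splice (n : ℕ) (a : Cn n) (x : C) : restr n (splice n a x) = a := by
  funext j
  simp [restr, splice]

theorem splice_restr (n : ℕ) (x y : C) : Agree n (splice n (restr n x) y) x := by
  intro j hj
  simp [restr, splice, hj]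

theorem splice_self (n : ℕ) (x : C) : splice n (restr n x) x = x := by
  funext j
  by_cases h : j < n <;> simp [restr, splice, h]

theorem splice_splice (n : ℕ) (a a' : Cn n) (x : C) :
    splice n a (splice n a' x) = splice n a x := by
  funext j
  by_cases h : j < n <;> simp [splice, h]

theorem agree_iff_restr (n : ℕ) (x y : C) : Agree n x y ↔ restr n x = restr n y := by
  constructor
  · intro h
    funext j
    exact h j j.2
  · intro h j hj
    exact congrFun h ⟨j, hj⟩

/-- the permutation of `C` induced by a permutation of the first `n` coordinates -/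
def permExt (n : ℕ) (σ : Equiv.Perm (Cn n)) : Equiv.Perm C where
  toFun x := splice n (σ (restr n x)) x
  invFun x := splice n (σ.symm (restr n x)) x
  left_inv x := by
    simp only
    rw [restr_splice, Equiv.symm_apply_apply, splice_splice, splice_self]
  right_inv x := by
    simp only
    rw [restr_splice, Equiv.apply_symm_apply, splice_splice, splice_self]

theorem restr_permExt (n : ℕ) (σ : Equiv.Perm (Cn n)) (x : C) :
    restr n (permExt n σ x) = σ (restr n x) :=
  restr_splice n _ x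

theorem isLevel_permExt (n : ℕ) (σ : Equiv.Perm (Cn n)) : IsLevel n (permExt n σ) := by
  refine ⟨fun x j hj => ?_, fun x y => ?_⟩
  · show splice n (σ (restr n x)) x j = x j
    simp [splice, not_lt.2 hj]
  · rw [agree_iff_restr, agree_iff_restr, restr_permExt, restr_permExt, σ.injective.eq_iff]

/-- `A` depends on the first `n` coordinates only. -/
def LevSet (n : ℕ) (A : Set C) : Prop := ∀ x y, Agree n x y → x ∈ A → y ∈ A

theorem LevSet.mono {m n : ℕ} (hmn : m ≤ n) {A : Set C} (h : LevSet m A) : LevSet n A :=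
  fun x y hxy hx => h x y (hxy.mono hmn) hx

theorem LevSet.compl {n : ℕ} {A : Set C} (h : LevSet n A) : LevSet n Aᶜ :=
  fun x y hxy hx hy => hx (h y x hxy.symm hy)

theorem LevSet.union {n : ℕ} {A B : Set C} (h : LevSet n A) (h' : LevSet n B) :
    LevSet n (A ∪ B) := by
  rintro x y hxy (hx | hx)
  · exact Or.inl (h x y hxy hx)
  · exact Or.inr (h' x y hxy hx)

theorem LevSet.preimage {n : ℕ} {A : Set C} (h : LevSet n A) {g : Equiv.Perm C}
    (hg : IsLevel n g) : LevSet n {x | g x ∈ A} :=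
  fun x y hxy hx => h (g x) (g y) ((hg.2 x y).1 hxy) hx

/-- The number of cylinders of level `n` in `A`. -/
noncomputable def cnt (n : ℕ) (A : Set C) : ℕ := {a : Cn n | splice n a base ∈ A}.ncard

theorem LevSet.mem_iff {n : ℕ} {A : Set C} (h : LevSet n A) (x y : C) :
    x ∈ A ↔ splice n (restr n x) y ∈ A :=
  ⟨fun hx => h _ _ (splice_restr n x y).symm hx, fun hx => h _ _ (splice_restr n x y) hx⟩

theorem exists_perm {α : Type} [Fintype α] (s t : Set α)
    (h : s.ncard ≤ t.ncard) : ∃ σ : Equiv.Perm α, ∀ a ∈ s, σ a ∈ t := by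
  classical
  rw [Set.ncard_eq_toFinset_card', Set.ncard_eq_toFinset_card'] at h
  obtain ⟨t', ht', hc⟩ := Finset.exists_subset_card_eq h
  let e : {x // x ∈ s.toFinset} ≃ {x // x ∈ t'} := Finset.equivOfCardEq hc.symm
  refine ⟨e.extendSubtype, fun a ha => Set.mem_toFinset.1 (ht' ?_)⟩
  exact e.extendSubtype_mem a (Set.mem_toFinset.2 ha)

/-- A level set can be moved into any level set with at least as many cylinders. -/
theorem exists_move {n : ℕ} {A B : Set C} (hA : LevSet n A) (hB : LevSet n B)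
    (h : cnt n A ≤ cnt n B) :
    ∃ g : G, IsLevel n (g : Equiv.Perm C) ∧ ∀ x ∈ A, (g : Equiv.Perm C) x ∈ B := by
  obtain ⟨σ, hσ⟩ := exists_perm _ _ h
  refine ⟨⟨permExt n σ, n, isLevel_permExt n σ⟩, isLevel_permExt n σ, fun x hx => ?_⟩
  show permExt n σ x ∈ B
  rw [hB.mem_iff _ base, restr_permExt]
  exact hσ (restr n x) ((hA.mem_iff x base).1 hx)

theorem cnt_mono {n : ℕ} {A B : Set C} (h : A ⊆ B) : cnt n A ≤ cnt n B :=
  Set.ncard_le_ncard (fun _ ha => h ha) (Set.toFinite _)

theorem cnt_union (n : ℕ) (A B : Set C) : cnt n (A ∪ B) ≤ cnt n A + cnt n B := by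
  unfold cnt
  have : {a : Cn n | splice n a base ∈ A ∪ B} =
      {a : Cn n | splice n a base ∈ A} ∪ {a : Cn n | splice n a base ∈ B} := rfl
  rw [this]
  exact Set.ncard_union_le _ _

theorem cnt_biUnion {ι : Type} (n : ℕ) (s : Finset ι) (A : ι → Set C) :
    cnt n (⋃ i ∈ s, A i) ≤ ∑ i ∈ s, cnt n (A i) := by
  classical
  induction s using Finset.induction_on with
  | empty =>
    simp [cnt]
  | insert a s ha ih =>
    rw [Finset.set_biUnion_insert, Finset.sum_insert ha]
    exact (cnt_union n _ _).trans (Nat.add_le_add_left ih _)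

theorem cnt_compl (n : ℕ) (A : Set C) : cnt n A + cnt n Aᶜ = Nat.card (Cn n) :=
  Set.ncard_add_ncard_compl _

theorem cnt_preimage {n : ℕ} {A : Set C} (hA : LevSet n A) {g : Equiv.Perm C}
    (hg : IsLevel n g) : cnt n {x | g x ∈ A} ≤ cnt n A := by
  unfold cnt
  refine Set.ncard_le_ncard_of_injOn (fun a => restr n (g (splice n a base))) ?_ ?_
    (Set.toFinite _)
  · intro a ha
    exact (hA.mem_iff _ base).1 ha
  · intro a _ a' _ h
    have h1 := (agree_iff_restr n _ _).2 h
    have h2 := (hg.2 _ _).2 h1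
    rw [agree_iff_restr, restr_splice, restr_splice] at h2
    exact h2

/-- A small level set can be moved off itself. -/
theorem exists_move_off {n : ℕ} {A : Set C} (hA : LevSet n A)
    (h : 2 * cnt n A ≤ Nat.card (Cn n)) :
    ∃ g : G, ∀ x ∈ A, (g : Equiv.Perm C) x ∉ A := by
  have h1 := cnt_compl n A
  obtain ⟨g, _, hg⟩ := exists_move hA hA.compl (by omega)
  exact ⟨g, hg⟩

theorem card_Cn (n : ℕ) : Nat.card (Cn n) = ∏ j : Fin n, 2 ^ ((j : ℕ) + 2) := by
  rw [Nat.card_eq_fintype_card, Fintype.card_pi]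
  simp [Q]

theorem card_Cn_pos (n : ℕ) : 0 < Nat.card (Cn n) := by
  rw [card_Cn]
  exact Finset.prod_pos fun j _ => by positivity

/-- The set `{x : x_j = 1}` has density `2 ^ -(j+2)`. -/
theorem cnt_one {n j : ℕ} (hj : j < n) :
    2 ^ (j + 2) * cnt n {x : C | x j = oneQ j} = Nat.card (Cn n) := by
  classical
  have h1 : {a : Cn n | splice n a base ∈ {x : C | x j = oneQ j}} =
      ((Fintype.piFinset (fun i : Fin n => if h : (i : ℕ) = j then
        ({h ▸ oneQ j} : Finset (Q i)) else Finset.univ) : Finset (Cn n)) : Set (Cn n)) := by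
    ext a
    simp only [Set.mem_ofPred_eq, Finset.mem_coe, Fintype.mem_piFinset, splice, dif_pos hj]
    constructor
    · intro ha i
      by_cases h : (i : ℕ) = j
      · subst h
        simp only [dite_true, Finset.mem_singleton]
        exact ha
      · simp [h]
    · intro ha
      have := ha ⟨j, hj⟩
      simpa using this
  unfold cnt
  rw [h1, Set.ncard_coe_finset, Fintype.card_piFinset, card_Cn]
  rw [← Finset.mul_prod_erase Finset.univ (fun j : Fin n => 2 ^ ((j : ℕ) + 2))
    (Finset.mem_univ (⟨j, hj⟩ : Fin n))]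
  rw [← Finset.mul_prod_erase Finset.univ _ (Finset.mem_univ (⟨j, hj⟩ : Fin n))]
  simp only [dite_true, Finset.card_singleton, one_mul]
  congr 1
  refine Finset.prod_congr rfl fun i hi => ?_
  have hne : (i : ℕ) ≠ j := by
    intro h
    apply (Finset.mem_erase.1 hi).1
    exact Fin.ext h
  rw [dif_neg hne]
  simp [Q]

/-- cylinders of level `m` have density at most `2 ^ -m` -/
theorem cnt_cyl {n m : ℕ} (hm : m ≤ n) (c : C) :
    2 ^ m * cnt n {x : C | Agree m c x} ≤ Nat.card (Cn n) := by
  classical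
  have h1 : {a : Cn n | splice n a base ∈ {x : C | Agree m c x}} =
      ((Fintype.piFinset (fun i : Fin n => if (i : ℕ) < m then
        ({c i} : Finset (Q i)) else Finset.univ) : Finset (Cn n)) : Set (Cn n)) := by
    ext a
    simp only [Set.mem_ofPred_eq, Finset.mem_coe, Fintype.mem_piFinset, splice, Agree]
    constructor
    · intro ha i
      by_cases h : (i : ℕ) < m
      · have := ha i h
        rw [dif_pos i.2] at this
        simp [h, this]
      · simp [h]
    · intro ha j hj
      have := ha ⟨j, lt_of_lt_of_le hj hm⟩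
      rw [dif_pos (lt_of_lt_of_le hj hm)]
      simpa [hj, eq_comm] using this
  unfold cnt
  rw [h1, Set.ncard_coe_finset, Fintype.card_piFinset, card_Cn]
  have h2 : (2 : ℕ) ^ m = ∏ i : Fin n, if (i : ℕ) < m then 2 else 1 := by
    rw [Fin.prod_univ_eq_prod_range (fun i => if i < m then 2 else 1) n]
    rw [Finset.prod_ite, Finset.prod_const, Finset.prod_const_one, mul_one]
    congr 1
    have : (Finset.range n).filter (fun x => x < m) = Finset.range m := by
      ext x
      simp only [Finset.mem_filter, Finset.mem_range]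
      omega
    rw [this, Finset.card_range]
  rw [h2, ← Finset.prod_mul_distrib]
  refine Finset.prod_le_prod' fun i _ => ?_
  by_cases h : (i : ℕ) < m
  · simp only [h, if_true, Finset.card_singleton, mul_one]
    calc 2 = 2 ^ 1 := by norm_num
      _ ≤ 2 ^ ((i : ℕ) + 2) := Nat.pow_le_pow_right (by norm_num) (by omega)
  · simp [h, Q]

/-- pigeonhole: finitely many `ZMod 2`-valued functions of level `n` are simultaneously constant on
a set of density at least `2 ^ -k` -/
theorem exists_pattern {n k : ℕ} (β : Fin k → C → ZMod 2) :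
    ∃ s : Fin k → ZMod 2, Nat.card (Cn n) ≤ 2 ^ k * cnt n {x : C | ∀ a, β a x = s a} := by
  classical
  by_contra hcon
  push Not at hcon
  have h1 : (Finset.univ : Finset (Cn n)).card =
      ∑ s : Fin k → ZMod 2, ((Finset.univ : Finset (Cn n)).filter
        (fun a => (fun i => β i (splice n a base)) = s)).card :=
    Finset.card_eq_sum_card_fiberwise (fun _ _ => Finset.mem_univ _)
  have h2 : ∀ s : Fin k → ZMod 2, ((Finset.univ : Finset (Cn n)).filter
        (fun a => (fun i => β i (splice n a base)) = s)).card =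
        cnt n {x : C | ∀ a, β a x = s a} := by
    intro s
    unfold cnt
    rw [Set.ncard_eq_toFinset_card']
    congr 1
    ext a
    simp [funext_iff]
  rw [Finset.card_univ, ← Nat.card_eq_fintype_card] at h1
  have h3 : 2 ^ k * Nat.card (Cn n) < 2 ^ k * Nat.card (Cn n) := by
    calc 2 ^ k * Nat.card (Cn n)
        = ∑ s : Fin k → ZMod 2, 2 ^ k * cnt n {x : C | ∀ a, β a x = s a} := by
          conv_lhs => rw [h1]
          rw [Finset.mul_sum]
          exact Finset.sum_congr rfl fun s _ => by rw [h2]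
      _ < ∑ s : Fin k → ZMod 2, Nat.card (Cn n) :=
          Finset.sum_lt_sum_of_nonempty Finset.univ_nonempty fun s _ => hcon s
      _ = 2 ^ k * Nat.card (Cn n) := by
          rw [Finset.sum_const, Finset.card_univ, Fintype.card_fun, Fintype.card_fin, ZMod.card,
            smul_eq_mul]
  exact lt_irrefl _ h3

/-- the exceptional sets `E_{g,i}` -/
def Exc (g : G) (i : ℕ) : Set C :=
  {x | coc g x ≠ b i ((g : Equiv.Perm C) x) + b i x}

theorem levSet_Exc {g : G} {n i : ℕ} (hg : IsLevel n (g : Equiv.Perm C)) (hi : i ≤ n) :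
    LevSet n (Exc g i) := by
  intro x y hxy hx
  unfold Exc at *
  rw [Set.mem_ofPred_eq] at *
  rw [← coc_congr hg hxy, ← b_congr (hxy.mono hi), ← b_congr (((hg.2 x y).1 hxy).mono hi)]
  exact hx

theorem Exc_subset {g : G} {n i : ℕ} (hg : IsLevel n (g : Equiv.Perm C)) (hi : i ≤ n) :
    Exc g i ⊆ ⋃ j ∈ Finset.Ico i n, ({x : C | x j = oneQ j} ∪
      {x : C | (g : Equiv.Perm C) x ∈ {x : C | x j = oneQ j}}) := by
  intro x hx
  by_contra hcon
  simp only [Set.mem_iUnion, not_exists] at hcon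
  apply hx
  rw [coc_eq hg, b_of_le hi, b_of_le hi]
  have h0 : ∀ j ∈ Finset.Ico i n, ind ((g : Equiv.Perm C) x) j = 0 := by
    intro j hj
    have := hcon j hj
    unfold ind
    rw [if_neg]
    exact fun h => this (Or.inr h)
  have h1 : ∀ j ∈ Finset.Ico i n, ind x j = 0 := by
    intro j hj
    have := hcon j hj
    unfold ind
    rw [if_neg]
    exact fun h => this (Or.inl h)
  rw [Finset.sum_eq_zero h0, Finset.sum_eq_zero h1, add_zero, add_zero]

theorem sum_le_aux (i n T : ℕ) (hi : i ≤ n) (w : ℕ → ℕ)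
    (hw : ∀ j ∈ Finset.Ico i n, 2 ^ (j + 2) * w j = T) :
    2 ^ (i + 1) * ∑ j ∈ Finset.Ico i n, w j ≤ T := by
  -- prove `2 ^ (n+1) * (2^(i+1) * Σ) ≤ (2^(n+1) - 2^(i+1)) * T`-type bound over `ℚ`
  have h1 : ∀ j ∈ Finset.Ico i n, (w j : ℚ) = T / 2 ^ (j + 2) := by
    intro j hj
    have := hw j hj
    rw [eq_div_iff (by positivity), mul_comm]
    exact_mod_cast this
  have h2 : ∀ m, i ≤ m → ∑ j ∈ Finset.Ico i m, (T : ℚ) / 2 ^ (j + 2) =
      T / 2 ^ (i + 1) - T / 2 ^ (m + 1) := by
    intro m hm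
    induction m, hm using Nat.le_induction with
    | base => simp
    | succ m hm ih =>
      rw [Finset.sum_Ico_succ_top hm, ih]
      field_simp
      ring
  have h3 : (2 ^ (i + 1) * ∑ j ∈ Finset.Ico i n, (w j : ℚ)) ≤ T := by
    rw [Finset.sum_congr rfl h1, h2 n hi, mul_sub, mul_div_cancel₀ _ (by positivity)]
    have : (0 : ℚ) ≤ 2 ^ (i + 1) * (T / 2 ^ (n + 1)) := by positivity
    linarith
  exact_mod_cast h3

/-- The exceptional sets have density at most `2 ^ -i`. -/
theorem cnt_Exc {g : G} {n i : ℕ} (hg : IsLevel n (g : Equiv.Perm C)) (hi : i ≤ n) :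
    2 ^ i * cnt n (Exc g i) ≤ Nat.card (Cn n) := by
  have h1 : cnt n (Exc g i) ≤ ∑ j ∈ Finset.Ico i n, 2 * cnt n {x : C | x j = oneQ j} := by
    refine (cnt_mono (Exc_subset hg hi)).trans ((cnt_biUnion n _ _).trans ?_)
    refine Finset.sum_le_sum fun j hj => ?_
    have hlev : LevSet n {x : C | x j = oneQ j} := by
      intro x y hxy hx
      rw [Set.mem_ofPred_eq] at *
      rw [← hxy j (Finset.mem_Ico.1 hj).2]
      exact hx
    have := cnt_preimage hlev hg
    have h3 := cnt_union n {x : C | x j = oneQ j}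
      {x : C | (g : Equiv.Perm C) x ∈ {x : C | x j = oneQ j}}
    omega
  have h2 := sum_le_aux i n (Nat.card (Cn n)) hi (fun j => cnt n {x : C | x j = oneQ j})
    (fun j hj => cnt_one (Finset.mem_Ico.1 hj).2)
  rw [← Finset.mul_sum] at h1
  calc 2 ^ i * cnt n (Exc g i) ≤ 2 ^ i * (2 * ∑ j ∈ Finset.Ico i n, cnt n {x : C | x j = oneQ j}) :=
        Nat.mul_le_mul_left _ h1
    _ = 2 ^ (i + 1) * ∑ j ∈ Finset.Ico i n, cnt n {x : C | x j = oneQ j} := by ring
    _ ≤ Nat.card (Cn n) := h2

end Pool.Agent.Lib.MP_04f1b7_lc
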