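import Mathlib

/-!
# External types, the Ellis semigroup `S_ext,G(M)` and `*`-elementary extensions

Setting of MP_04f1b7_lc.  `L` is a first-order language and `M` an `L`-structure whose universe
is a group with `L`-definable multiplication; the definable group is `G = M`.
-/

namespace Pool.Agent.Lib.MP_04f1b7_lc

open FirstOrder FirstOrder.Language

/-- `X ⊆ Mⁿ` is externally definable: there are an elementary extension `N₀` of `M`, an
`L`-formula `φ` and a tuple `b` from `N₀` with `X = {a ∈ Mⁿ : N₀ ⊨ φ(a, b)}`. -/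
def ExtDef (L : FirstOrder.Language.{0, 0}) (M : Type) [L.Structure M] {n : ℕ}
    (X : Set (Fin n → M)) : Prop :=
  ∃ (N₀ : Type) (_ : L.Structure N₀) (e : M ↪ₑ[L] N₀) (k : ℕ)
    (φ : L.Formula (Fin n ⊕ Fin k)) (b : Fin k → N₀),
    X = {a : Fin n → M | φ.Realize (Sum.elim (e ∘ a) b)}

section FiniteTrace

/-- the class of a sequence in an ultrapower -/
abbrev cls {α M : Type} (u : Ultrafilter α) (f : α → M) : (u : Filter α).Product (fun _ => M) :=
  @Quotient.mk' _ (Filter.productSetoid (u : Filter α) (fun _ => M)) f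

/-- Łoś for ultrapowers. -/
theorem realize_cls {L : FirstOrder.Language.{0, 0}} {M : Type} [L.Structure M] [Nonempty M]
    {α β : Type} (u : Ultrafilter α) (φ : L.Formula β) (x : β → α → M) :
    φ.Realize (fun i => cls u (x i)) ↔ ∀ᶠ a in (u : Filter α), φ.Realize (fun i => x i a) :=
  Ultraproduct.realize_formula_cast (M := fun _ : α => M) (u := u) φ x

/-- The diagonal embedding of a structure into an ultrapower is elementary. -/
def diag {L : FirstOrder.Language.{0, 0}} {M : Type} [L.Structure M] [Nonempty M]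
    {α : Type} (u : Ultrafilter α) : M ↪ₑ[L] (u : Filter α).Product (fun _ => M) where
  toFun x := cls u (fun _ => x)
  map_formula' := by
    intro m ψ x
    have := realize_cls u ψ (fun i => fun _ => x i)
    refine this.trans ?_
    rw [Filter.eventually_const]

variable {L : FirstOrder.Language.{0, 0}} {M : Type} [L.Structure M]

/-- Finite-trace criterion: `X` is externally definable iff for some formula `φ` its trace on
every finite set is the trace of an instance of `φ` with parameters in `M`. -/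
theorem extDef_iff [Nonempty M] {n : ℕ} (X : Set (Fin n → M)) :
    ExtDef L M X ↔ ∃ (k : ℕ) (φ : L.Formula (Fin n ⊕ Fin k)), ∀ A : Finset (Fin n → M),
      ∃ b : Fin k → M, ∀ a ∈ A, (a ∈ X ↔ φ.Realize (Sum.elim a b)) := by
  constructor
  · rintro ⟨N₀, hN₀, e, k, φ, b, rfl⟩
    refine ⟨k, φ, fun A => ?_⟩
    classical
    -- the formula saying that some `y` has the required trace on the finite set `A`
    let Ψ : L.Formula ((A × Fin n) ⊕ Fin k) :=
      Formula.iInf (fun a : A =>
        if φ.Realize (Sum.elim (e ∘ (a : Fin n → M)) b) then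
          φ.relabel (Sum.map (fun i => (a, i)) id)
        else (φ.relabel (Sum.map (fun i => (a, i)) id)).not)
    have key : (Ψ.iExs (Fin k)).Realize (e ∘ (fun p : A × Fin n => (p.1 : Fin n → M) p.2)) := by
      rw [Formula.realize_iExs]
      refine ⟨b, ?_⟩
      rw [Formula.realize_iInf]
      intro a
      have hcomp : (Sum.elim (e ∘ (fun p : A × Fin n => (p.1 : Fin n → M) p.2)) b) ∘
          (Sum.map (fun i => (a, i)) id) = Sum.elim (e ∘ (a : Fin n → M)) b := by
        ext i
        rcases i with i | i <;> rfl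
      split_ifs with h
      · rw [Formula.realize_relabel, hcomp]
        exact h
      · rw [Formula.realize_not, Formula.realize_relabel, hcomp]
        exact h
    rw [e.map_formula, Formula.realize_iExs] at key
    obtain ⟨b', hb'⟩ := key
    rw [Formula.realize_iInf] at hb'
    refine ⟨b', fun a ha => ?_⟩
    have h1 := hb' ⟨a, ha⟩
    have hcomp : (Sum.elim (fun p : A × Fin n => (p.1 : Fin n → M) p.2) b') ∘
        (Sum.map (fun i => ((⟨a, ha⟩ : A), i)) id) = Sum.elim a b' := by
      ext i
      rcases i with i | i <;> rfl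
    simp only at h1
    split_ifs at h1 with h
    · rw [Formula.realize_relabel, hcomp] at h1
      exact ⟨fun _ => h1, fun _ => h⟩
    · rw [Formula.realize_not, Formula.realize_relabel, hcomp] at h1
      exact ⟨fun h' => absurd h' h, fun h' => absurd h' h1⟩
  · rintro ⟨k, φ, h⟩
    choose b hb using h
    classical
    let F : Filter (Finset (Fin n → M)) := Filter.atTop
    let u : Ultrafilter (Finset (Fin n → M)) := Ultrafilter.of F
    refine ⟨(u : Filter (Finset (Fin n → M))).Product (fun _ => M), inferInstance,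
      diag u, k, φ, fun j => cls u (fun A => b A j), ?_⟩
    ext a
    have := realize_cls (L := L) u φ (Sum.elim (fun i => fun _ => a i) (fun j => fun A => b A j))
    have h2 : (fun i => cls u ((Sum.elim (fun i => fun _ => a i) (fun j => fun A => b A j) :
          Fin n ⊕ Fin k → (Finset (Fin n → M)) → M) i)) =
        Sum.elim ((diag u : M ↪ₑ[L] _) ∘ a) (fun j => cls u (fun A => b A j)) := by
      funext i
      rcases i with i | i <;> rfl
    rw [h2] at this
    refine Iff.trans ?_ this.symm
    have h3 : ∀ᶠ A in (u : Filter (Finset (Fin n → M))), a ∈ A := by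
      have : ∀ᶠ A in F, a ∈ A := by
        filter_upwards [Filter.eventually_ge_atTop ({a} : Finset (Fin n → M))] with A hA
        exact hA (Finset.mem_singleton_self a)
      exact (Ultrafilter.of_le F) this
    have h4 : (∀ᶠ A in (u : Filter (Finset (Fin n → M))), a ∈ X) ↔
        ∀ᶠ A in (u : Filter (Finset (Fin n → M))),
          φ.Realize (fun i => (Sum.elim (fun i => fun _ => a i) (fun j => fun A => b A j) :
            Fin n ⊕ Fin k → (Finset (Fin n → M)) → M) i A) := by
      apply Filter.eventually_congr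
      filter_upwards [h3] with A hA
      have h5 : (fun i => (Sum.elim (fun i => fun _ => a i) (fun j => fun A => b A j) :
        Fin n ⊕ Fin k → (Finset (Fin n → M)) → M) i A) = Sum.elim a (b A) := by
        funext i
        rcases i with i | i <;> rfl
      rw [h5]
      exact hb A a hA
    rw [← h4, Filter.eventually_const]

end FiniteTrace

/-- An externally definable subset of the universe `M` (the case `n = 1`). -/
def ExtDef₁ (L : FirstOrder.Language.{0, 0}) (M : Type) [L.Structure M] (U : Set M) : Prop :=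
  ExtDef L M {a : Fin 1 → M | a 0 ∈ U}

/-- `μ(x, y, z)` defines the graph of the group multiplication of the `L`-structure `M`. -/
class IsMulFormula {L : FirstOrder.Language.{0, 0}} (μ : L.Formula (Fin 3)) (M : Type)
    [L.Structure M] [Group M] : Prop where
  realize_iff : ∀ x y z : M, μ.Realize ![x, y, z] ↔ x * y = z

section Closure

variable {L : FirstOrder.Language.{0, 0}} {M : Type} [L.Structure M]

theorem extDef₁_iff [Nonempty M] (U : Set M) :
    ExtDef₁ L M U ↔ ∃ (k : ℕ) (φ : L.Formula (Fin 1 ⊕ Fin k)), ∀ A : Finset M,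
      ∃ b : Fin k → M, ∀ a ∈ A, (a ∈ U ↔ φ.Realize (Sum.elim (fun _ => a) b)) := by
  classical
  unfold ExtDef₁
  rw [extDef_iff]
  constructor
  · rintro ⟨k, φ, h⟩
    refine ⟨k, φ, fun A => ?_⟩
    obtain ⟨b, hb⟩ := h (A.image (fun a => fun _ => a))
    refine ⟨b, fun a ha => ?_⟩
    exact hb (fun _ => a) (Finset.mem_image_of_mem _ ha)
  · rintro ⟨k, φ, h⟩
    refine ⟨k, φ, fun A => ?_⟩
    obtain ⟨b, hb⟩ := h (A.image (fun a => a 0))
    refine ⟨b, fun a ha => ?_⟩
    have h1 := hb (a 0) (Finset.mem_image_of_mem _ ha)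
    have h2 : (fun _ : Fin 1 => a 0) = a := by
      funext i
      rw [Subsingleton.elim i 0]
    rw [h2] at h1
    exact h1

theorem extDef₁_of_formula [Nonempty M] {β : Type} [Finite β] {U : Set M}
    (φ : L.Formula (Fin 1 ⊕ β))
    (h : ∀ A : Finset M, ∃ b : β → M, ∀ a ∈ A,
      (a ∈ U ↔ φ.Realize (Sum.elim (fun _ => a) b))) : ExtDef₁ L M U := by
  rw [extDef₁_iff]
  obtain ⟨k, ⟨ε⟩⟩ := Finite.exists_equiv_fin β
  refine ⟨k, φ.relabel (Sum.map id ε), fun A => ?_⟩
  obtain ⟨b, hb⟩ := h A
  refine ⟨b ∘ ε.symm, fun a ha => ?_⟩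
  rw [hb a ha, Formula.realize_relabel]
  have : (Sum.elim (fun _ => a) (b ∘ ε.symm)) ∘ (Sum.map id ε) =
      (Sum.elim (fun _ : Fin 1 => a) b) := by
    funext i
    rcases i with i | i <;> simp
  rw [this]

theorem ExtDef₁.compl [Nonempty M] {U : Set M} (hU : ExtDef₁ L M U) : ExtDef₁ L M Uᶜ := by
  rw [extDef₁_iff] at hU ⊢
  obtain ⟨k, φ, h⟩ := hU
  refine ⟨k, φ.not, fun A => ?_⟩
  obtain ⟨b, hb⟩ := h A
  refine ⟨b, fun a ha => ?_⟩
  rw [Set.mem_compl_iff, Formula.realize_not, hb a ha]

theorem ExtDef₁.inter [Nonempty M] {U V : Set M} (hU : ExtDef₁ L M U) (hV : ExtDef₁ L M V) :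
    ExtDef₁ L M (U ∩ V) := by
  rw [extDef₁_iff] at hU hV
  obtain ⟨k, φ, h⟩ := hU
  obtain ⟨l, ψ, h'⟩ := hV
  refine extDef₁_of_formula (β := Fin k ⊕ Fin l)
    (φ.relabel (Sum.map id Sum.inl) ⊓ ψ.relabel (Sum.map id Sum.inr)) fun A => ?_
  obtain ⟨b, hb⟩ := h A
  obtain ⟨c, hc⟩ := h' A
  refine ⟨Sum.elim b c, fun a ha => ?_⟩
  rw [Set.mem_inter_iff, Formula.realize_inf, Formula.realize_relabel, Formula.realize_relabel,
    hb a ha, hc a ha]
  have h1 : (Sum.elim (fun _ : Fin 1 => a) (Sum.elim b c)) ∘ (Sum.map id Sum.inl) =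
      Sum.elim (fun _ => a) b := by
    funext i
    rcases i with i | i <;> rfl
  have h2 : (Sum.elim (fun _ : Fin 1 => a) (Sum.elim b c)) ∘ (Sum.map id Sum.inr) =
      Sum.elim (fun _ => a) c := by
    funext i
    rcases i with i | i <;> rfl
  rw [h1, h2]

theorem ExtDef₁.univ [Nonempty M] : ExtDef₁ L M Set.univ := by
  rw [extDef₁_iff]
  exact ⟨0, ⊤, fun A => ⟨Fin.elim0, fun a _ => by simp⟩⟩

theorem ExtDef₁.empty [Nonempty M] : ExtDef₁ L M ∅ := by
  have := (ExtDef₁.univ (L := L) (M := M)).compl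
  rwa [Set.compl_univ] at this

/-- If the traces of `V` on finite sets are traces of right shifts `{g : g * z ∈ U}`, then `V`
is externally definable. -/
theorem extDef₁_of_shift (μ : L.Formula (Fin 3)) [Group M] [IsMulFormula μ M] {U V : Set M}
    (hU : ExtDef₁ L M U)
    (h : ∀ A : Finset M, ∃ z : M, ∀ g ∈ A, (g ∈ V ↔ g * z ∈ U)) : ExtDef₁ L M V := by
  classical
  rw [extDef₁_iff] at hU
  obtain ⟨k, φ, hφ⟩ := hU
  let μ' : L.Formula ((Fin 1 ⊕ (Fin k ⊕ Fin 1)) ⊕ Fin 1) :=
    μ.relabel ![Sum.inl (Sum.inl 0), Sum.inl (Sum.inr (Sum.inr 0)), Sum.inr 0]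
  let φ' : L.Formula ((Fin 1 ⊕ (Fin k ⊕ Fin 1)) ⊕ Fin 1) :=
    φ.relabel (Sum.elim (fun _ => Sum.inr 0) (fun j => Sum.inl (Sum.inr (Sum.inl j))))
  refine extDef₁_of_formula (β := Fin k ⊕ Fin 1) ((μ' ⊓ φ').iExs (Fin 1)) fun A => ?_
  obtain ⟨z, hz⟩ := h A
  obtain ⟨b, hb⟩ := hφ (A.image (fun g => g * z))
  refine ⟨Sum.elim b (fun _ => z), fun g hg => ?_⟩
  rw [hz g hg, hb (g * z) (Finset.mem_image_of_mem _ hg), Formula.realize_iExs]
  constructor
  · intro hr
    refine ⟨fun _ => g * z, ?_⟩
    rw [Formula.realize_inf, Formula.realize_relabel, Formula.realize_relabel]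
    constructor
    · have : (Sum.elim (Sum.elim (fun _ : Fin 1 => g) (Sum.elim b fun _ : Fin 1 => z))
          (fun _ : Fin 1 => g * z)) ∘
          ![Sum.inl (Sum.inl 0), Sum.inl (Sum.inr (Sum.inr 0)), Sum.inr 0] =
          ![g, z, g * z] := by
        funext i
        fin_cases i <;> rfl
      rw [this, IsMulFormula.realize_iff]
    · have : (Sum.elim (Sum.elim (fun _ : Fin 1 => g) (Sum.elim b fun _ : Fin 1 => z))
          (fun _ : Fin 1 => g * z)) ∘
          (Sum.elim (fun _ => Sum.inr 0) (fun j => Sum.inl (Sum.inr (Sum.inl j)))) =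
          Sum.elim (fun _ : Fin 1 => g * z) b := by
        funext i
        rcases i with i | i <;> rfl
      rw [this]
      exact hr
  · rintro ⟨c, hc⟩
    rw [Formula.realize_inf, Formula.realize_relabel, Formula.realize_relabel] at hc
    obtain ⟨h1, h2⟩ := hc
    have e1 : (Sum.elim (Sum.elim (fun _ : Fin 1 => g) (Sum.elim b fun _ : Fin 1 => z)) c) ∘
          ![Sum.inl (Sum.inl 0), Sum.inl (Sum.inr (Sum.inr 0)), Sum.inr 0] =
          ![g, z, c 0] := by
      funext i
      fin_cases i <;> rfl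
    rw [e1, IsMulFormula.realize_iff] at h1
    have e2 : (Sum.elim (Sum.elim (fun _ : Fin 1 => g) (Sum.elim b fun _ : Fin 1 => z)) c) ∘
          (Sum.elim (fun _ => Sum.inr 0) (fun j => Sum.inl (Sum.inr (Sum.inl j)))) =
          Sum.elim (fun _ : Fin 1 => g * z) b := by
      funext i
      rcases i with i | i
      · show c 0 = g * z
        exact h1.symm
      · rfl
    rw [e2] at h2
    exact h2

/-- Left translates of externally definable sets are externally definable. -/
theorem ExtDef₁.translate (μ : L.Formula (Fin 3)) [Group M] [IsMulFormula μ M] {U : Set M}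
    (hU : ExtDef₁ L M U) (w : M) : ExtDef₁ L M {h | w * h ∈ U} := by
  classical
  rw [extDef₁_iff] at hU
  obtain ⟨k, φ, hφ⟩ := hU
  let μ' : L.Formula ((Fin 1 ⊕ (Fin k ⊕ Fin 1)) ⊕ Fin 1) :=
    μ.relabel ![Sum.inl (Sum.inr (Sum.inr 0)), Sum.inl (Sum.inl 0), Sum.inr 0]
  let φ' : L.Formula ((Fin 1 ⊕ (Fin k ⊕ Fin 1)) ⊕ Fin 1) :=
    φ.relabel (Sum.elim (fun _ => Sum.inr 0) (fun j => Sum.inl (Sum.inr (Sum.inl j))))
  refine extDef₁_of_formula (β := Fin k ⊕ Fin 1) ((μ' ⊓ φ').iExs (Fin 1)) fun A => ?_
  obtain ⟨b, hb⟩ := hφ (A.image (fun g => w * g))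
  refine ⟨Sum.elim b (fun _ => w), fun g hg => ?_⟩
  rw [Set.mem_ofPred_eq, hb (w * g) (Finset.mem_image_of_mem _ hg), Formula.realize_iExs]
  constructor
  · intro hr
    refine ⟨fun _ => w * g, ?_⟩
    rw [Formula.realize_inf, Formula.realize_relabel, Formula.realize_relabel]
    constructor
    · have : (Sum.elim (Sum.elim (fun _ : Fin 1 => g) (Sum.elim b fun _ : Fin 1 => w))
          (fun _ : Fin 1 => w * g)) ∘
          ![Sum.inl (Sum.inr (Sum.inr 0)), Sum.inl (Sum.inl 0), Sum.inr 0] =
          ![w, g, w * g] := by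
        funext i
        fin_cases i <;> rfl
      rw [this, IsMulFormula.realize_iff]
    · have : (Sum.elim (Sum.elim (fun _ : Fin 1 => g) (Sum.elim b fun _ : Fin 1 => w))
          (fun _ : Fin 1 => w * g)) ∘
          (Sum.elim (fun _ => Sum.inr 0) (fun j => Sum.inl (Sum.inr (Sum.inl j)))) =
          Sum.elim (fun _ : Fin 1 => w * g) b := by
        funext i
        rcases i with i | i <;> rfl
      rw [this]
      exact hr
  · rintro ⟨c, hc⟩
    rw [Formula.realize_inf, Formula.realize_relabel, Formula.realize_relabel] at hc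
    obtain ⟨h1, h2⟩ := hc
    have e1 : (Sum.elim (Sum.elim (fun _ : Fin 1 => g) (Sum.elim b fun _ : Fin 1 => w)) c) ∘
          ![Sum.inl (Sum.inr (Sum.inr 0)), Sum.inl (Sum.inl 0), Sum.inr 0] =
          ![w, g, c 0] := by
      funext i
      fin_cases i <;> rfl
    rw [e1, IsMulFormula.realize_iff] at h1
    have e2 : (Sum.elim (Sum.elim (fun _ : Fin 1 => g) (Sum.elim b fun _ : Fin 1 => w)) c) ∘
          (Sum.elim (fun _ => Sum.inr 0) (fun j => Sum.inl (Sum.inr (Sum.inl j)))) =
          Sum.elim (fun _ : Fin 1 => w * g) b := by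
      funext i
      rcases i with i | i
      · show c 0 = w * g
        exact h1.symm
      · rfl
    rw [e2] at h2
    exact h2

end Closure

/-- The type space `S_ext,G(M)` for `G = M`: ultrafilters on the Boolean algebra of externally
definable subsets of `M`. -/
@[ext]
structure ExtType (L : FirstOrder.Language.{0, 0}) (M : Type) [L.Structure M] where
  /-- the members of the ultrafilter -/
  sets : Set (Set M)
  /-- all members are externally definable -/
  extDef : ∀ U ∈ sets, ExtDef₁ L M U
  /-- the whole universe is a member -/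
  univ_mem : Set.univ ∈ sets
  /-- closure under intersections -/
  inter_mem : ∀ U ∈ sets, ∀ V ∈ sets, U ∩ V ∈ sets
  /-- closure under externally definable supersets -/
  superset_mem : ∀ U ∈ sets, ∀ V, ExtDef₁ L M V → U ⊆ V → V ∈ sets
  /-- exactly one of `U` and its complement is a member -/
  compl_mem_iff : ∀ U, ExtDef₁ L M U → (Uᶜ ∈ sets ↔ U ∉ sets)

namespace ExtType

variable {L : FirstOrder.Language.{0, 0}} {M : Type} [L.Structure M]

theorem empty_notMem (p : ExtType L M) : ∅ ∉ p.sets := by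
  intro h
  have h1 := p.compl_mem_iff ∅ (p.extDef ∅ h)
  rw [Set.compl_empty] at h1
  exact h1.1 p.univ_mem h

theorem nonempty_of_mem (p : ExtType L M) {U : Set M} (hU : U ∈ p.sets) : U.Nonempty := by
  rw [Set.nonempty_iff_ne_empty]
  rintro rfl
  exact p.empty_notMem hU

theorem biInter_mem (p : ExtType L M) {ι : Type} (A : Finset ι) (f : ι → Set M)
    (h : ∀ i ∈ A, f i ∈ p.sets) : (⋂ i ∈ A, f i) ∈ p.sets := by
  classical
  induction A using Finset.induction_on with
  | empty => simpa using p.univ_mem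
  | insert a s _ ih =>
    rw [Finset.set_biInter_insert]
    exact p.inter_mem _ (h a (Finset.mem_insert_self a s)) _
      (ih fun i hi => h i (Finset.mem_insert_of_mem hi))

/-- For `q ∈ S_ext,G(M)` and `U` externally definable, `{g : g⁻¹U ∈ q}` is externally definable;
here `g⁻¹U = {h : g * h ∈ U}`. -/
theorem extDef_shift (μ : L.Formula (Fin 3)) [Group M] [IsMulFormula μ M] (q : ExtType L M) {U : Set M} (hU : ExtDef₁ L M U) :
    ExtDef₁ L M {g | {h | g * h ∈ U} ∈ q.sets} := by
  classical
  refine extDef₁_of_shift μ hU fun A => ?_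
  let f : M → Set M := fun g => if {h | g * h ∈ U} ∈ q.sets then {h | g * h ∈ U}
    else {h | g * h ∈ U}ᶜ
  have hf : ∀ g ∈ A, f g ∈ q.sets := by
    intro g _
    by_cases hg : {h | g * h ∈ U} ∈ q.sets
    · simp only [f, if_pos hg]
      exact hg
    · simp only [f, if_neg hg]
      exact (q.compl_mem_iff _ (hU.translate μ g)).2 hg
  obtain ⟨z, hz⟩ := q.nonempty_of_mem (q.biInter_mem A f hf)
  refine ⟨z, fun g hg => ?_⟩
  have hz1 : z ∈ f g := by
    have := Set.mem_iInter₂.1 hz g hg
    exact this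
  by_cases hg' : {h | g * h ∈ U} ∈ q.sets
  · simp only [f, if_pos hg'] at hz1
    exact ⟨fun _ => hz1, fun _ => hg'⟩
  · simp only [f, if_neg hg'] at hz1
    exact ⟨fun h => absurd h hg', fun h => absurd h hz1⟩

variable (μ : L.Formula (Fin 3)) [Group M] [IsMulFormula μ M]

/-- The semigroup operation of `S_ext,G(M)`: `U ∈ p * q` iff `{g : g⁻¹U ∈ q} ∈ p`. -/
def mul (p q : ExtType L M) : ExtType L M where
  sets := {U | ExtDef₁ L M U ∧ {g | {h | g * h ∈ U} ∈ q.sets} ∈ p.sets}
  extDef _ hU := hU.1
  univ_mem := by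
    refine ⟨ExtDef₁.univ, ?_⟩
    have : {g : M | {h | g * h ∈ Set.univ} ∈ q.sets} = Set.univ := by
      ext g
      simp [q.univ_mem]
    rw [this]
    exact p.univ_mem
  inter_mem := by
    rintro U ⟨hU, hU'⟩ V ⟨hV, hV'⟩
    refine ⟨hU.inter hV, ?_⟩
    refine p.superset_mem _ (p.inter_mem _ hU' _ hV') _ (extDef_shift μ q (hU.inter hV)) ?_
    rintro g ⟨h1, h2⟩
    exact q.inter_mem _ h1 _ h2
  superset_mem := by
    rintro U ⟨hU, hU'⟩ V hV hUV
    refine ⟨hV, ?_⟩
    refine p.superset_mem _ hU' _ (extDef_shift μ q hV) ?_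
    intro g hg
    exact q.superset_mem _ hg _ (hV.translate μ g) fun h hh => hUV hh
  compl_mem_iff := by
    intro U hU
    have h1 : {g : M | {h | g * h ∈ Uᶜ} ∈ q.sets} = {g | {h | g * h ∈ U} ∈ q.sets}ᶜ := by
      ext g
      exact q.compl_mem_iff _ (hU.translate μ g)
    have h2 := p.compl_mem_iff _ (extDef_shift μ q hU)
    constructor
    · rintro ⟨_, h⟩ ⟨_, h'⟩
      rw [h1] at h
      exact h2.1 h h'
    · intro h
      refine ⟨hU.compl, ?_⟩
      rw [h1, h2]
      exact fun h' => h ⟨hU, h'⟩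

theorem mem_mul {p q : ExtType L M} {U : Set M} (hU : ExtDef₁ L M U) :
    U ∈ (mul μ p q).sets ↔ {g | {h | g * h ∈ U} ∈ q.sets} ∈ p.sets :=
  ⟨fun h => h.2, fun h => ⟨hU, h⟩⟩

theorem mul_assoc' (p q r : ExtType L M) : mul μ (mul μ p q) r = mul μ p (mul μ q r) := by
  ext U
  constructor
  · rintro ⟨hU, h⟩
    refine ⟨hU, ?_⟩
    rw [mem_mul μ (extDef_shift μ r hU)] at h
    have : {g : M | {h | g * h ∈ U} ∈ (mul μ q r).sets} =
        {g | {h | g * h ∈ {g | {h | g * h ∈ U} ∈ r.sets}} ∈ q.sets} := by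
      ext g
      rw [Set.mem_ofPred_eq, mem_mul μ (hU.translate μ g)]
      simp only [Set.mem_ofPred_eq, mul_assoc]
    rw [this]
    exact h
  · rintro ⟨hU, h⟩
    refine ⟨hU, ?_⟩
    rw [mem_mul μ (extDef_shift μ r hU)]
    have : {g : M | {h | g * h ∈ U} ∈ (mul μ q r).sets} =
        {g | {h | g * h ∈ {g | {h | g * h ∈ U} ∈ r.sets}} ∈ q.sets} := by
      ext g
      rw [Set.mem_ofPred_eq, mem_mul μ (hU.translate μ g)]
      simp only [Set.mem_ofPred_eq, mul_assoc]
    rw [this] at h
    exact h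

end ExtType

section IdealSubgroups

variable {L : FirstOrder.Language.{0, 0}} {M : Type} [L.Structure M] [Group M]

/-- `I` is a (nonempty) left ideal of the semigroup `S_ext,G(M)`. -/
def IsLeftIdeal (μ : L.Formula (Fin 3)) [IsMulFormula μ M] (I : Set (ExtType L M)) : Prop :=
  I.Nonempty ∧ ∀ p : ExtType L M, ∀ q ∈ I, ExtType.mul μ p q ∈ I

/-- `I` is a minimal left ideal of the semigroup `S_ext,G(M)`. -/
def IsMinimalLeftIdeal (μ : L.Formula (Fin 3)) [IsMulFormula μ M]
    (I : Set (ExtType L M)) : Prop :=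
  IsLeftIdeal μ I ∧ ∀ J : Set (ExtType L M), IsLeftIdeal μ J → J ⊆ I → J = I

/-- `H` is an ideal subgroup of `S_ext,G(M)`: `H = u * I` for a minimal left ideal `I` and an
idempotent `u ∈ I`. -/
def IsIdealSubgroup (μ : L.Formula (Fin 3)) [IsMulFormula μ M] (H : Set (ExtType L M)) : Prop :=
  ∃ (I : Set (ExtType L M)) (u : ExtType L M), IsMinimalLeftIdeal μ I ∧ u ∈ I ∧
    ExtType.mul μ u u = u ∧ H = {x | ∃ q ∈ I, x = ExtType.mul μ u q}

end IdealSubgroups

section StarExtension

variable (L : FirstOrder.Language.{0, 0}) (M : Type) [L.Structure M]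

/-- A language with a predicate for every externally definable subset of every `Mⁿ`. -/
def extPreds : FirstOrder.Language.{0, 0} :=
  ⟨fun _ => Empty, fun n => {X : Set (Fin n → M) // ExtDef L M X}⟩

/-- The language `L_ext,M` of `M_ext`: `L` with a predicate for every externally definable
set. -/
abbrev extLang : FirstOrder.Language.{0, 0} := L.sum (extPreds L M)

instance extPredsStructure : (extPreds L M).Structure M where
  funMap f := f.elim
  RelMap X a := a ∈ X.1

/-- The `L`-reduct of an `L_ext,M`-structure. -/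
@[instance_reducible]
def baseReduct (N : Type) [(extLang L M).Structure N] : L.Structure N :=
  (LHom.sumInl : L →ᴸ extLang L M).reduct N

theorem realize_baseReduct (N : Type) [(extLang L M).Structure N] {α : Type}
    (φ : L.Formula α) (v : α → N) :
    @Formula.Realize L N (baseReduct L M N) α φ v ↔
      ((LHom.sumInl : L →ᴸ extLang L M).onFormula φ).Realize v := by
  let := baseReduct L M N
  have : (LHom.sumInl : L →ᴸ extLang L M).IsExpansionOn N := LHom.isExpansionOn_reduct _ _
  exact (LHom.realize_onFormula _ _).symm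

/-- A `*`-elementary extension `M ≺* N`: an elementary extension `N'` of `M_ext` in the language
`L_ext,M`, where `N` is the `L`-reduct of `N'`.  The group structure on `N` is the one defined
by `μ`. -/
structure StarExt (μ : L.Formula (Fin 3)) where
  /-- the common universe of `N'` and `N` -/
  carrier : Type
  /-- the `L_ext,M`-structure `N'` -/
  extStructure : (extLang L M).Structure carrier
  /-- `N'` is an elementary extension of `M_ext` -/
  emb : M ↪ₑ[extLang L M] carrier
  /-- the group `G(N)` -/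
  group : Group carrier
  /-- the multiplication of `G(N)` is defined by `μ` in the `L`-reduct `N` of `N'` -/
  isMulFormula : @IsMulFormula L μ carrier (baseReduct L M carrier) group

attribute [instance] StarExt.extStructure StarExt.group

/-- The `L`-structure `N`, the reduct of `N'` to `L`. -/
instance StarExt.reductStructure {μ : L.Formula (Fin 3)} (N : StarExt L M μ) :
    L.Structure N.carrier :=
  baseReduct L M N.carrier

instance {μ : L.Formula (Fin 3)} (N : StarExt L M μ) : IsMulFormula μ N.carrier :=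
  N.isMulFormula

end StarExtension

namespace StarExt

variable {L : FirstOrder.Language.{0, 0}} {M : Type} [L.Structure M] {μ : L.Formula (Fin 3)}
  (N : StarExt L M μ)

/-- The interpretation `X(N')` in `N'` of the predicate for the externally definable set `X`. -/
def interp {n : ℕ} (X : Set (Fin n → M)) (hX : ExtDef L M X) : Set (Fin n → N.carrier) :=
  {b | Structure.RelMap (L := extLang L M) (Sum.inr ⟨X, hX⟩) b}

theorem transfer {β : Type} [Finite β] (φ : (extLang L M).Formula β)
    (h : ∀ v : β → M, φ.Realize v) (v : β → N.carrier) : φ.Realize v := by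
  let ψ : (extLang L M).Sentence := (φ.relabel (Sum.inr : β → Empty ⊕ β)).iAlls β
  have hM : M ⊨ ψ := by
    unfold Sentence.Realize
    rw [Formula.realize_iAlls]
    intro i
    rw [Formula.realize_relabel]
    exact h _
  have hN : N.carrier ⊨ ψ := (N.emb.map_sentence ψ).1 hM
  unfold Sentence.Realize at hN
  rw [Formula.realize_iAlls] at hN
  have := hN v
  rw [Formula.realize_relabel] at this
  exact this

/-- Every externally definable subset of `Mⁿ` has an interpretation in `N'` which is externally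
definable in `N`: this is the sense in which `L_ext,N` extends `L_ext,M`. -/
theorem extDef_interp [Nonempty M] {n : ℕ} (X : Set (Fin n → M)) (hX : ExtDef L M X) :
    ExtDef L N.carrier (N.interp X hX) := by
  classical
  have hX' := hX
  rw [extDef_iff] at hX'
  obtain ⟨k, φ, h⟩ := hX'
  have : Nonempty N.carrier := ⟨N.emb (Classical.arbitrary M)⟩
  rw [extDef_iff]
  refine ⟨k, φ, fun A => ?_⟩
  let R : (extLang L M).Relations n := Sum.inr ⟨X, hX⟩
  let Θ : (extLang L M).Formula (A × Fin n) :=
    (Formula.iInf (fun a : A =>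
      (R.formula (fun i => Term.var (Sum.inl (a, i)) : Fin n →
        (extLang L M).Term ((A × Fin n) ⊕ Fin k))).iff
      (((LHom.sumInl : L →ᴸ extLang L M).onFormula φ).relabel
        (Sum.map (fun i => (a, i)) id)))).iExs (Fin k)
  have key : ∀ v : A × Fin n → N.carrier, Θ.Realize v := by
    refine N.transfer Θ fun v => ?_
    obtain ⟨b, hb⟩ := h (Finset.univ.image fun a : A => fun i => v (a, i))
    rw [Formula.realize_iExs]
    refine ⟨b, ?_⟩
    rw [Formula.realize_iInf]
    intro a
    rw [Formula.realize_iff, Formula.realize_rel, Formula.realize_relabel,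
      LHom.realize_onFormula]
    have e1 : (Sum.elim v b) ∘ (Sum.map (fun i => (a, i)) id) =
        Sum.elim (fun i => v (a, i)) b := by
      funext i
      rcases i with i | i <;> rfl
    rw [e1]
    exact hb _ (Finset.mem_image_of_mem _ (Finset.mem_univ a))
  have h1 := key (fun p => (p.1 : Fin n → N.carrier) p.2)
  rw [Formula.realize_iExs] at h1
  obtain ⟨b, hb⟩ := h1
  rw [Formula.realize_iInf] at hb
  refine ⟨b, fun a ha => ?_⟩
  have h2 := hb ⟨a, ha⟩
  rw [Formula.realize_iff, Formula.realize_rel, Formula.realize_relabel,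
    LHom.realize_onFormula] at h2
  have e1 : (Sum.elim (fun p : A × Fin n => (p.1 : Fin n → N.carrier) p.2) b) ∘
      (Sum.map (fun i => ((⟨a, ha⟩ : A), i)) id) = Sum.elim a b := by
    funext i
    rcases i with i | i <;> rfl
  rw [e1] at h2
  exact h2

/-- The interpretation `U(N') ⊆ N` of an externally definable set `U ⊆ M`. -/
def interp₁ (U : Set M) (hU : ExtDef₁ L M U) : Set N.carrier :=
  {c | (fun _ : Fin 1 => c) ∈ N.interp {a : Fin 1 → M | a 0 ∈ U} hU}

theorem extDef₁_interp₁ [Nonempty M] (U : Set M) (hU : ExtDef₁ L M U) :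
    ExtDef₁ L N.carrier (N.interp₁ U hU) := by
  have h := N.extDef_interp {a : Fin 1 → M | a 0 ∈ U} hU
  unfold ExtDef₁
  have e : {a : Fin 1 → N.carrier | a 0 ∈ N.interp₁ U hU} =
      N.interp {a : Fin 1 → M | a 0 ∈ U} hU := by
    ext a
    have : (fun _ : Fin 1 => a 0) = a := by
      funext i
      rw [Subsingleton.elim i 0]
    unfold interp₁
    rw [Set.mem_ofPred_eq, Set.mem_ofPred_eq, this]
  rw [e]
  exact h

/-- the atomic formula `U(x)` -/
def atomF (U : Set M) (hU : ExtDef₁ L M U) : (extLang L M).Formula (Fin 1) :=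
  Relations.formula (L := extLang L M) (n := 1) (Sum.inr ⟨{a : Fin 1 → M | a 0 ∈ U}, hU⟩)
    (fun i => Term.var i)

theorem realize_atomF_M (U : Set M) (hU : ExtDef₁ L M U) (v : Fin 1 → M) :
    (atomF U hU).Realize v ↔ v 0 ∈ U :=
  Formula.realize_rel

theorem realize_atomF_N (U : Set M) (hU : ExtDef₁ L M U) (c : N.carrier) :
    (atomF U hU).Realize (fun _ : Fin 1 => c) ↔ c ∈ N.interp₁ U hU :=
  Formula.realize_rel

theorem interp₁_inter {U V : Set M} (hU : ExtDef₁ L M U) (hV : ExtDef₁ L M V)
    (hUV : ExtDef₁ L M (U ∩ V)) :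
    N.interp₁ (U ∩ V) hUV = N.interp₁ U hU ∩ N.interp₁ V hV := by
  ext c
  have h := N.transfer ((atomF (U ∩ V) hUV).iff (atomF U hU ⊓ atomF V hV)) (fun v => by
    rw [Formula.realize_iff, Formula.realize_inf, realize_atomF_M, realize_atomF_M,
      realize_atomF_M]
    rfl) (fun _ => c)
  rw [Formula.realize_iff, Formula.realize_inf, realize_atomF_N, realize_atomF_N,
      realize_atomF_N] at h
  exact h

theorem interp₁_compl {U : Set M} (hU : ExtDef₁ L M U) (hU' : ExtDef₁ L M Uᶜ) :
    N.interp₁ Uᶜ hU' = (N.interp₁ U hU)ᶜ := by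
  ext c
  have h := N.transfer ((atomF Uᶜ hU').iff (atomF U hU).not) (fun v => by
    rw [Formula.realize_iff, Formula.realize_not, realize_atomF_M, realize_atomF_M]
    rfl) (fun _ => c)
  rw [Formula.realize_iff, Formula.realize_not, realize_atomF_N, realize_atomF_N] at h
  exact h

theorem interp₁_univ (hU : ExtDef₁ L M Set.univ) : N.interp₁ Set.univ hU = Set.univ := by
  ext c
  have h := N.transfer (atomF Set.univ hU) (fun v => by
    rw [realize_atomF_M]
    trivial) (fun _ => c)
  rw [realize_atomF_N] at h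
  exact ⟨fun _ => trivial, fun _ => h⟩

theorem interp₁_mono {U V : Set M} (hU : ExtDef₁ L M U) (hV : ExtDef₁ L M V) (hUV : U ⊆ V) :
    N.interp₁ U hU ⊆ N.interp₁ V hV := by
  intro c hc
  have h := N.transfer ((atomF U hU).imp (atomF V hV)) (fun v => by
    rw [Formula.realize_imp, realize_atomF_M, realize_atomF_M]
    exact fun h => hUV h) (fun _ => c)
  rw [Formula.realize_imp, realize_atomF_N, realize_atomF_N] at h
  exact h hc

/-- The restriction map `r : S_ext,G(N) → S_ext,G(M)`: `U ∈ r(p)` iff `U(N') ∈ p`. -/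
def restrict [Nonempty M] (p : ExtType L N.carrier) : ExtType L M where
  sets := {U | ∃ hU : ExtDef₁ L M U, N.interp₁ U hU ∈ p.sets}
  extDef _ hU := hU.1
  univ_mem := ⟨ExtDef₁.univ, by rw [interp₁_univ]; exact p.univ_mem⟩
  inter_mem := by
    rintro U ⟨hU, hU'⟩ V ⟨hV, hV'⟩
    refine ⟨hU.inter hV, ?_⟩
    rw [N.interp₁_inter hU hV]
    exact p.inter_mem _ hU' _ hV'
  superset_mem := by
    rintro U ⟨hU, hU'⟩ V hV hUV
    exact ⟨hV, p.superset_mem _ hU' _ (N.extDef₁_interp₁ V hV) (N.interp₁_mono hU hV hUV)⟩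
  compl_mem_iff := by
    intro U hU
    have h1 := p.compl_mem_iff _ (N.extDef₁_interp₁ U hU)
    constructor
    · rintro ⟨h2, h3⟩ ⟨_, h4⟩
      rw [N.interp₁_compl hU] at h3
      exact h1.1 h3 h4
    · intro h
      refine ⟨hU.compl, ?_⟩
      rw [N.interp₁_compl hU, h1]
      exact fun h' => h ⟨hU, h'⟩

theorem mem_restrict [Nonempty M] (p : ExtType L N.carrier) {U : Set M} (hU : ExtDef₁ L M U) :
    U ∈ (N.restrict p).sets ↔ N.interp₁ U hU ∈ p.sets :=
  ⟨fun h => h.2, fun h => ⟨hU, h⟩⟩

end StarExt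

end Pool.Agent.Lib.MP_04f1b7_lc
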