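import Pool.Agent.Lib.MP_04f1b7_lc.NSide

/-!
# Ideal subgroups over `M` see `κ`
-/

namespace Pool.Agent.Lib.MP_04f1b7_lc

open FirstOrder FirstOrder.Language

open ExtType

theorem not_mem_iff (p : ExtType (fullLang G) G) (U : Set G) : Uᶜ ∈ p.sets ↔ U ∉ p.sets :=
  p.compl_mem_iff U (extDef₁_full U)

/-- Two sets agreeing on a member of `p` are both in `p` or both not in `p`. -/
theorem mem_congr (p : ExtType (fullLang G) G) {T U V : Set G} (hT : T ∈ p.sets)
    (h : ∀ x ∈ T, x ∈ U ↔ x ∈ V) : U ∈ p.sets ↔ V ∈ p.sets := by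
  constructor
  · intro hU
    refine p.superset_mem _ (p.inter_mem _ hT _ hU) _ (extDef₁_full V) ?_
    rintro x ⟨hx1, hx2⟩
    exact (h x hx1).1 hx2
  · intro hV
    refine p.superset_mem _ (p.inter_mem _ hT _ hV) _ (extDef₁_full U) ?_
    rintro x ⟨hx1, hx2⟩
    exact (h x hx1).2 hx2

/-- the limit position of an external type -/
theorem exists_pos (p : ExtType (fullLang G) G) :
    ∃ y : C, ∀ j, {z : G | pos z j = y j} ∈ p.sets := by
  classical
  have h : ∀ j, ∃ v : Q j, {z : G | pos z j = v} ∈ p.sets := by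
    intro j
    by_contra hcon
    push Not at hcon
    have h1 : (⋂ v ∈ (Finset.univ : Finset (Q j)), {z : G | pos z j = v}ᶜ) ∈ p.sets :=
      p.biInter_mem _ _ fun v _ => (not_mem_iff p _).2 (hcon v)
    obtain ⟨z, hz⟩ := p.nonempty_of_mem h1
    exact Set.mem_iInter₂.1 hz (pos z j) (Finset.mem_univ _) rfl
  choose y hy using h
  exact ⟨y, hy⟩

theorem shift_iff {p : ExtType (fullLang G) G} {y : C}
    (hy : ∀ j, {z : G | pos z j = y j} ∈ p.sets) (z : G) :
    {h | z * h ∈ {z : G | kap z = 0}} ∈ p.sets ↔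
      ({z : G | kap z = 0} ∈ p.sets ↔ coc z y = 0) := by
  classical
  let n := lvl z
  have hT : (⋂ j ∈ Finset.range n, {z : G | pos z j = y j}) ∈ p.sets :=
    p.biInter_mem _ _ fun j _ => hy j
  have hT2 : ∀ h ∈ (⋂ j ∈ Finset.range n, {z : G | pos z j = y j}), coc z (pos h) = coc z y := by
    intro h hh
    refine coc_congr (isLevel_lvl z) fun j hj => ?_
    exact Set.mem_iInter₂.1 hh j (Finset.mem_range.2 hj)
  by_cases hc : coc z y = 0
  · have h1 : {h | z * h ∈ {z : G | kap z = 0}} ∈ p.sets ↔ {z : G | kap z = 0} ∈ p.sets := by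
      refine mem_congr p hT fun h hh => ?_
      rw [Set.mem_ofPred_eq, Set.mem_ofPred_eq, Set.mem_ofPred_eq, kap_mul', hT2 h hh, hc,
        zero_add]
    rw [h1]
    simp [hc]
  · have h1 : {h | z * h ∈ {z : G | kap z = 0}} ∈ p.sets ↔ {z : G | kap z = 0}ᶜ ∈ p.sets := by
      refine mem_congr p hT fun h hh => ?_
      rw [Set.mem_ofPred_eq, Set.mem_compl_iff, Set.mem_ofPred_eq, Set.mem_ofPred_eq, kap_mul',
        hT2 h hh]
      generalize coc z y = α at hc
      generalize kap h = γ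
      revert α γ
      decide
    rw [h1, not_mem_iff]
    simp [hc]

/-- for every `y ∈ C` there is a permutation of the `n`-th coordinate with cocycle value `1` at
`y` -/
theorem exists_flip (y : C) (n : ℕ) : ∃ σ : Equiv.Perm (Q n), coc (coordG n σ) y = 1 := by
  classical
  have hlev : ∀ σ : Equiv.Perm (Q n), IsLevel (n + 1) (coordG n σ : Equiv.Perm C) :=
    fun σ => isLevel_coordPerm n σ
  have hval : ∀ σ : Equiv.Perm (Q n), coc (coordG n σ) y =
      (if σ (y n) = oneQ n then 1 else 0) + (if y n = oneQ n then 1 else 0) := by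
    intro σ
    rw [coc_eq (hlev σ)]
    have h1 : (coordG n σ : Equiv.Perm C) y = coordPerm n σ y := rfl
    rw [h1]
    unfold b
    rw [Finset.sum_range_succ, Finset.sum_range_succ]
    have h2 : ∑ j ∈ Finset.range n, ind (coordPerm n σ y) j = ∑ j ∈ Finset.range n, ind y j := by
      refine Finset.sum_congr rfl fun j hj => ?_
      unfold ind
      rw [coordPerm_ne n σ y (ne_of_lt (Finset.mem_range.1 hj))]
    rw [h2]
    generalize ∑ j ∈ Finset.range n, ind y j = α
    have h3 : ∀ α β γ : ZMod 2, α + β + (α + γ) = β + γ := by decide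
    rw [h3]
    unfold ind
    rw [coordPerm_self]
  by_cases h : y n = oneQ n
  · refine ⟨Equiv.swap (base n) (oneQ n), ?_⟩
    rw [hval, h, Equiv.swap_apply_right, if_neg (base_ne_oneQ n), if_pos rfl, zero_add]
  · refine ⟨Equiv.swap (y n) (oneQ n), ?_⟩
    rw [hval, Equiv.swap_apply_left, if_pos rfl, if_neg h, add_zero]

/-- Every ideal subgroup of `S_ext,G(M)` contains two types which differ on `κ`. -/
theorem M_side {H : Set (ExtType (fullLang G) G)} (hH : IsIdealSubgroup (mulF G) H) :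
    ∃ p₁ ∈ H, ∃ p₂ ∈ H, {z : G | kap z = 0} ∈ p₁.sets ∧ {z : G | kap z = 0} ∉ p₂.sets := by
  classical
  obtain ⟨I, v, hI, hv, hvv, rfl⟩ := hH
  obtain ⟨y, hy⟩ := exists_pos v
  choose σ hσ using exists_flip y
  let V : Ultrafilter ℕ := Filter.hyperfilter ℕ
  let q : ExtType (fullLang G) G := ofUltrafilter (V.map fun n => coordG n (σ n))
  have hVge : ∀ k : ℕ, ∀ᶠ n in (V : Filter ℕ), k < n := by
    intro k
    have h1 : ∀ᶠ n in (Filter.cofinite : Filter ℕ), k < n := by
      rw [Nat.cofinite_eq_atTop]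
      exact Filter.eventually_gt_atTop k
    exact Filter.hyperfilter_le_cofinite h1
  have hq : ∀ X : Set G, X ∈ q.sets ↔ ∀ᶠ n in (V : Filter ℕ), coordG n (σ n) ∈ X := by
    intro X
    rw [mem_ofUltrafilter _ (extDef₁_full X)]
    exact Iff.rfl
  set p := mul (mulF G) q v with hp
  have hpI : p ∈ I := hI.1.2 q v hv
  have hpy : ∀ j, {z : G | pos z j = y j} ∈ p.sets := by
    intro j
    rw [hp, mem_mul (mulF G) (extDef₁_full _), hq]
    filter_upwards [hVge j] with n hn
    have h1 : {h : G | coordG n (σ n) * h ∈ {z : G | pos z j = y j}} =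
        {z : G | pos z j = y j} := by
      ext h
      show coordPerm n (σ n) (pos h) j = y j ↔ pos h j = y j
      rw [coordPerm_ne n (σ n) (pos h) (ne_of_lt hn)]
    show {h : G | coordG n (σ n) * h ∈ {z : G | pos z j = y j}} ∈ v.sets
    rw [h1]
    exact hy j
  have hpU : {z : G | kap z = 0} ∈ p.sets ↔ {z : G | kap z = 0} ∉ v.sets := by
    rw [hp, mem_mul (mulF G) (extDef₁_full _), hq]
    have h1 : ∀ n, (coordG n (σ n) ∈ {g | {h | g * h ∈ {z : G | kap z = 0}} ∈ v.sets}) ↔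
        {z : G | kap z = 0} ∉ v.sets := by
      intro n
      rw [Set.mem_ofPred_eq, shift_iff hy, hσ n]
      have h10 : (1 : ZMod 2) ≠ 0 := by decide
      simp [h10]
    simp only [h1, Filter.eventually_const]
  have hr : {z : G | kap z = 0} ∈ (mul (mulF G) v p).sets ↔
      {z : G | kap z = 0} ∉ v.sets := by
    rw [mem_mul (mulF G) (extDef₁_full _)]
    have h1 : {g | {h | g * h ∈ {z : G | kap z = 0}} ∈ p.sets} =
        {g | {h | g * h ∈ {z : G | kap z = 0}} ∈ v.sets}ᶜ := by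
      ext g
      rw [Set.mem_ofPred_eq, shift_iff hpy, hpU, Set.mem_compl_iff, Set.mem_ofPred_eq,
        shift_iff hy]
      tauto
    rw [h1, not_mem_iff, ← mem_mul (mulF G) (extDef₁_full _), hvv]
  have m₁ : mul (mulF G) v p ∈ {x | ∃ q ∈ I, x = mul (mulF G) v q} := ⟨p, hpI, rfl⟩
  have m₂ : v ∈ {x | ∃ q ∈ I, x = mul (mulF G) v q} := ⟨v, hv, hvv.symm⟩
  by_cases h : {z : G | kap z = 0} ∈ v.sets
  · exact ⟨v, m₂, _, m₁, h, fun h' => (hr.1 h') h⟩
  · exact ⟨_, m₁, v, m₂, hr.2 h, h⟩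

/-- The counterexample. -/
theorem counterexample (H : Set (ExtType (fullLang G)
      (upExt G (Filter.hyperfilter ℕ)).carrier)) (hH : IsIdealSubgroup (mulF G) H) :
    ¬ IsIdealSubgroup (mulF G) ((upExt G (Filter.hyperfilter ℕ)).restrict '' H) := by
  intro hH'
  have hu : ∀ k : ℕ, ∀ᶠ i in ((Filter.hyperfilter ℕ : Ultrafilter ℕ) : Filter ℕ), k ≤ i := by
    intro k
    have h1 : ∀ᶠ n in (Filter.cofinite : Filter ℕ), k ≤ n := by
      rw [Nat.cofinite_eq_atTop]
      exact Filter.eventually_ge_atTop k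
    exact Filter.hyperfilter_le_cofinite h1
  obtain ⟨_, ⟨h₁, hh₁, rfl⟩, _, ⟨h₂, hh₂, rfl⟩, hU₁, hU₂⟩ := M_side hH'
  rw [StarExt.mem_restrict _ _ (extDef₁_full _), interp₁_eq] at hU₁ hU₂
  exact hU₂ (N_side hu hH hh₁ hh₂ hU₁)

end Pool.Agent.Lib.MP_04f1b7_lc
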