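import Pool.Agent.Lib.MP_04f1b7_lc.Semi
import Pool.Agent.Lib.MP_04f1b7_lc.Comb

/-!
# The full structure on a group and its ultrapower
-/

namespace Pool.Agent.Lib.MP_04f1b7_lc

open FirstOrder FirstOrder.Language

/-- The language with an `n`-ary relation symbol for every subset of `Aⁿ`, for all `n`. -/
def fullLang (A : Type) : FirstOrder.Language.{0, 0} :=
  ⟨fun _ => Empty, fun n => Set (Fin n → A)⟩

/-- The relation symbol of the full language attached to `X ⊆ Aⁿ`. -/
def relSym {A : Type} {n : ℕ} (X : Set (Fin n → A)) : (fullLang A).Relations n := X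

/-- The full structure on `A`: every relation symbol is interpreted by itself. -/
instance fullStructure (A : Type) : (fullLang A).Structure A where
  funMap f := f.elim
  RelMap {n} R v := Membership.mem (γ := Set (Fin n → A)) R v

theorem relMap_relSym {A : Type} {n : ℕ} (X : Set (Fin n → A)) (v : Fin n → A) :
    Structure.RelMap (relSym X) v ↔ v ∈ X := Iff.rfl

/-- The atomic formula for the graph of the multiplication. -/
def mulF (A : Type) [Group A] : (fullLang A).Formula (Fin 3) :=
  (relSym {v : Fin 3 → A | v 0 * v 1 = v 2}).formula (fun i => Term.var i)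

section Full

variable {A : Type} [Group A]

instance : IsMulFormula (mulF A) A where
  realize_iff x y z := by
    unfold mulF
    rw [Formula.realize_rel, relMap_relSym]
    rfl

omit [Group A] in
theorem extDef_full [Nonempty A] {n : ℕ} (X : Set (Fin n → A)) : ExtDef (fullLang A) A X := by
  rw [extDef_iff]
  refine ⟨0, (relSym X).formula (fun i => Term.var (Sum.inl i)),
    fun _ => ⟨Fin.elim0, fun a _ => ?_⟩⟩
  rw [Formula.realize_rel, relMap_relSym]
  rfl

omit [Group A] in
theorem extDef₁_full [Nonempty A] (U : Set A) : ExtDef₁ (fullLang A) A U := extDef_full _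

end Full

section Ultra

/-- the ultrapower of `A` -/
abbrev UP (A : Type) (u : Ultrafilter ℕ) : Type := (u : Filter ℕ).Product (fun _ => A)

variable {A : Type} (u : Ultrafilter ℕ)

theorem cls_eq {f g : ℕ → A} : cls u f = cls u g ↔ ∀ᶠ i in (u : Filter ℕ), f i = g i :=
  Quotient.eq''

theorem exists_cls (x : UP A u) : ∃ f, x = cls u f := by
  induction x using Quotient.inductionOn with
  | h f => exact ⟨f, rfl⟩

variable [Group A]

instance upGroup : Group (UP A u) :=
  inferInstanceAs (Group (Filter.Germ (u : Filter ℕ) A))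

theorem cls_mul (f g : ℕ → A) : cls u f * cls u g = cls u (fun i => f i * g i) := rfl

/-- The ultrapower of the full structure on `A` as a `*`-elementary extension of it. -/
def upExt (A : Type) [Group A] (u : Ultrafilter ℕ) : StarExt (fullLang A) A (mulF A) where
  carrier := UP A u
  extStructure := Ultraproduct.structure
  emb := diag u
  group := upGroup u
  isMulFormula := by
    refine @IsMulFormula.mk _ _ _ (baseReduct (fullLang A) A (UP A u)) _ ?_
    intro x y z
    obtain ⟨f, rfl⟩ := exists_cls u x
    obtain ⟨g, rfl⟩ := exists_cls u y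
    obtain ⟨h, rfl⟩ := exists_cls u z
    rw [cls_mul, cls_eq, realize_baseReduct]
    have h1 := realize_cls (L := extLang (fullLang A) A) u
      ((LHom.sumInl : fullLang A →ᴸ extLang (fullLang A) A).onFormula (mulF A)) ![f, g, h]
    have h2 : (fun i => cls u ((![f, g, h] : Fin 3 → ℕ → A) i)) =
        ![cls u f, cls u g, cls u h] := by
      funext i
      fin_cases i <;> rfl
    rw [h2] at h1
    refine h1.trans ?_
    refine Filter.eventually_congr (Filter.Eventually.of_forall fun i => ?_)
    rw [LHom.realize_onFormula]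
    unfold mulF
    rw [Formula.realize_rel, relMap_relSym]
    rfl

/-- the element of `N` represented by a sequence -/
def el (f : ℕ → A) : (upExt A u).carrier := cls u f

theorem exists_el (x : (upExt A u).carrier) : ∃ f, x = el u f := exists_cls u x

theorem el_eq {f g : ℕ → A} : el u f = el u g ↔ ∀ᶠ i in (u : Filter ℕ), f i = g i :=
  cls_eq u

theorem el_mul (f g : ℕ → A) : el u f * el u g = el u (fun i => f i * g i) := rfl

/-- The internal subset of the ultrapower given by a sequence of subsets. -/
def intSet (X : ℕ → Set A) : Set (upExt A u).carrier :=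
  {x | ∃ f, x = el u f ∧ ∀ᶠ i in (u : Filter ℕ), f i ∈ X i}

theorem mem_intSet {X : ℕ → Set A} {f : ℕ → A} :
    el u f ∈ intSet u X ↔ ∀ᶠ i in (u : Filter ℕ), f i ∈ X i := by
  constructor
  · rintro ⟨g, hg, hg'⟩
    rw [el_eq] at hg
    filter_upwards [hg, hg'] with i h1 h2
    rw [h1]
    exact h2
  · intro h
    exact ⟨f, rfl, h⟩

theorem realize_el {α : Type} (φ : (fullLang A).Formula α) (x : α → ℕ → A) :
    φ.Realize (M := (upExt A u).carrier) (fun i => el u (x i)) ↔
      ∀ᶠ i in (u : Filter ℕ), φ.Realize (fun j => x j i) := by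
  refine (@realize_baseReduct (fullLang A) A _ (UP A u) Ultraproduct.structure _ φ _).trans ?_
  refine (realize_cls (L := extLang (fullLang A) A) u _ x).trans ?_
  refine Filter.eventually_congr (Filter.Eventually.of_forall fun i => ?_)
  rw [LHom.realize_onFormula]

theorem extDef₁_intSet {t : ℕ → A} (ht : Function.Injective t) (X : ℕ → Set A) :
    ExtDef₁ (fullLang A) (upExt A u).carrier (intSet u X) := by
  let φ : (fullLang A).Formula (Fin 1 ⊕ Fin 1) :=
    (relSym {v : Fin 2 → A | ∃ i, v 0 = t i ∧ v 1 ∈ X i}).formula
      ![Term.var (Sum.inr 0), Term.var (Sum.inl 0)]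
  refine ⟨(upExt A u).carrier, inferInstance, ElementaryEmbedding.refl _ _, 1, φ,
    fun _ => el u t, ?_⟩
  ext a
  obtain ⟨f, hf⟩ := exists_el u (a 0)
  have e1 : Sum.elim ((ElementaryEmbedding.refl (fullLang A) (upExt A u).carrier) ∘ a)
      (fun _ : Fin 1 => el u t) =
      (fun i => el u ((Sum.elim (fun _ => f) (fun _ => t) : Fin 1 ⊕ Fin 1 → ℕ → A) i)) := by
    funext i
    rcases i with i | i
    · show a i = el u f
      rw [Subsingleton.elim i 0]
      exact hf
    · rfl
  rw [Set.mem_ofPred_eq, Set.mem_ofPred_eq, e1, realize_el, hf, mem_intSet]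
  refine Filter.eventually_congr (Filter.Eventually.of_forall fun i => ?_)
  rw [Formula.realize_rel, relMap_relSym, Set.mem_ofPred_eq]
  constructor
  · intro h
    exact ⟨i, rfl, h⟩
  · rintro ⟨j, hj, hj'⟩
    have : i = j := ht hj
    subst this
    exact hj'

theorem interp₁_eq (U : Set A) (hU : ExtDef₁ (fullLang A) A U) :
    (upExt A u).interp₁ U hU = intSet u (fun _ => U) := by
  ext c
  obtain ⟨f, rfl⟩ := exists_el u c
  rw [← StarExt.realize_atomF_N, mem_intSet]
  refine (realize_cls (L := extLang (fullLang A) A) u (StarExt.atomF U hU)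
    (fun _ : Fin 1 => f)).trans ?_
  refine Filter.eventually_congr (Filter.Eventually.of_forall fun i => ?_)
  rw [StarExt.realize_atomF_M]

end Ultra

end Pool.Agent.Lib.MP_04f1b7_lc
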