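import Pool.Agent.Lib.MP_04f1b7_lc.Model

/-!
# Ideal subgroups over the ultrapower do not see `κ`
-/

namespace Pool.Agent.Lib.MP_04f1b7_lc

open FirstOrder FirstOrder.Language

/-- position of `z • base` -/
def pos (z : G) : C := (z : Equiv.Perm C) base

theorem pos_mul (g z : G) : pos (g * z) = (g : Equiv.Perm C) (pos z) := rfl

theorem kap_mul' (g z : G) : kap (g * z) = coc g (pos z) + kap z := kap_mul g z

/-- a permutation acting on the `n`-th coordinate only -/
def coordPerm (n : ℕ) (σ : Equiv.Perm (Q n)) : Equiv.Perm C where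
  toFun x := Function.update x n (σ (x n))
  invFun x := Function.update x n (σ.symm (x n))
  left_inv x := by simp
  right_inv x := by simp

theorem coordPerm_self (n : ℕ) (σ : Equiv.Perm (Q n)) (x : C) :
    coordPerm n σ x n = σ (x n) := by
  show Function.update x n (σ (x n)) n = _
  simp

theorem coordPerm_ne (n : ℕ) (σ : Equiv.Perm (Q n)) (x : C) {j : ℕ} (hj : j ≠ n) :
    coordPerm n σ x j = x j := by
  show Function.update x n (σ (x n)) j = _
  simp [hj]

theorem isLevel_coordPerm (n : ℕ) (σ : Equiv.Perm (Q n)) : IsLevel (n + 1) (coordPerm n σ) := by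
  refine ⟨fun x j hj => coordPerm_ne n σ x (by omega), fun x y => ?_⟩
  constructor
  · intro h j hj
    by_cases hjn : j = n
    · subst hjn
      rw [coordPerm_self, coordPerm_self, h j hj]
    · rw [coordPerm_ne n σ x hjn, coordPerm_ne n σ y hjn]
      exact h j hj
  · intro h j hj
    have := h j hj
    by_cases hjn : j = n
    · subst hjn
      rw [coordPerm_self, coordPerm_self] at this
      exact σ.injective this
    · rw [coordPerm_ne n σ x hjn, coordPerm_ne n σ y hjn] at this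
      exact this

/-- `coordPerm` as an element of `G` -/
def coordG (n : ℕ) (σ : Equiv.Perm (Q n)) : G := ⟨coordPerm n σ, n + 1, isLevel_coordPerm n σ⟩

/-- pairwise distinct elements `t_0, t_1, …` of `G` -/
def tt (n : ℕ) : G := coordG n (Equiv.swap (base n) (oneQ n))

theorem tt_injective : Function.Injective tt := by
  intro m n h
  by_contra hne
  have h1 : (tt m : Equiv.Perm C) base m = (tt n : Equiv.Perm C) base m := by rw [h]
  have h2 : (tt m : Equiv.Perm C) base m = oneQ m := by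
    show coordPerm m (Equiv.swap (base m) (oneQ m)) base m = _
    rw [coordPerm_self, Equiv.swap_apply_left]
  have h3 : (tt n : Equiv.Perm C) base m = base m := coordPerm_ne n _ _ hne
  rw [h2, h3] at h1
  exact base_ne_oneQ m h1.symm

variable (u : Ultrafilter ℕ)

/-- the internal subset `{h : h • base ∈ A}` of `N` -/
def hat (A : ℕ → Set C) : Set (upExt G u).carrier := intSet u (fun i => {z : G | pos z ∈ A i})

theorem extDef₁_int (X : ℕ → Set G) : ExtDef₁ (fullLang G) (upExt G u).carrier (intSet u X) :=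
  extDef₁_intSet u tt_injective X

theorem extDef₁_hat (A : ℕ → Set C) :
    ExtDef₁ (fullLang G) (upExt G u).carrier (hat u A) := extDef₁_int u _

theorem mem_hat {A : ℕ → Set C} {f : ℕ → G} :
    el u f ∈ hat u A ↔ ∀ᶠ i in (u : Filter ℕ), pos (f i) ∈ A i := mem_intSet u

theorem mul_mem_hat {A : ℕ → Set C} (f h : ℕ → G) :
    el u f * el u h ∈ hat u A ↔
      ∀ᶠ i in (u : Filter ℕ), (f i : Equiv.Perm C) (pos (h i)) ∈ A i := by
  rw [el_mul, mem_hat]
  rfl

/-- sequences of level sets whose densities tend to `0` -/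
def IsSmall (A : ℕ → Set C) : Prop :=
  ∀ k : ℕ, ∀ᶠ i in (u : Filter ℕ), ∃ n₀, ∀ n ≥ n₀, LevSet n (A i) ∧
    k * cnt n (A i) ≤ Nat.card (Cn n)

section

variable {u}
variable {I : Set (ExtType (fullLang G) (upExt G u).carrier)}

open ExtType

/-- Step A: small internal sets do not belong to almost periodic types. -/
theorem small_notMem (hI : IsMinimalLeftIdeal (mulF G) I) {A : ℕ → Set C} (hA : IsSmall u A)
    {y : ExtType (fullLang G) (upExt G u).carrier} (hy : y ∈ I) : hat u A ∉ y.sets := by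
  classical
  intro hmem
  obtain ⟨F, hF⟩ := hI.exists_finset hy hmem
  choose rep hrep using fun x : (upExt G u).carrier => exists_el u x
  let A' : ℕ → Set C := fun i => ⋃ f ∈ F, {x | (rep f i : Equiv.Perm C) x ∈ A i}
  have hsub : ∀ f ∈ F, {h | f * h ∈ hat u A} ⊆ hat u A' := by
    intro f hf h hh
    obtain ⟨h', rfl⟩ := exists_el u h
    rw [Set.mem_ofPred_eq, hrep f, mul_mem_hat] at hh
    rw [mem_hat]
    filter_upwards [hh] with i hi
    exact Set.mem_iUnion₂.2 ⟨f, hf, hi⟩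
  have hall : ∀ y' ∈ I, hat u A' ∈ y'.sets := by
    intro y' hy'
    obtain ⟨f, hf, hf'⟩ := hF y' hy'
    exact y'.superset_mem _ hf' _ (extDef₁_int u _) (hsub f hf)
  have hmove : ∀ᶠ i in (u : Filter ℕ), ∃ g : G, ∀ x ∈ A' i, (g : Equiv.Perm C) x ∉ A' i := by
    filter_upwards [hA (2 * F.card)] with i hi
    obtain ⟨n₀, hn₀⟩ := hi
    let n := max n₀ (F.sup fun f => lvl (rep f i))
    obtain ⟨hlev, hcnt⟩ := hn₀ n (le_max_left _ _)
    have hl : ∀ f ∈ F, IsLevel n (rep f i : Equiv.Perm C) := by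
      intro f hf
      refine (isLevel_lvl (rep f i)).mono ?_
      exact (Finset.le_sup (f := fun f => lvl (rep f i)) hf).trans (le_max_right _ _)
    have hlev' : LevSet n (A' i) := by
      intro x x' hxx' hx
      obtain ⟨f, hf, hx1⟩ := Set.mem_iUnion₂.1 hx
      exact Set.mem_iUnion₂.2 ⟨f, hf, (hlev.preimage (hl f hf)) x x' hxx' hx1⟩
    have hcnt' : cnt n (A' i) ≤ F.card * cnt n (A i) := by
      refine (cnt_biUnion n F _).trans ?_
      rw [← smul_eq_mul]
      exact Finset.sum_le_card_nsmul F _ _ fun f hf => cnt_preimage hlev (hl f hf)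
    refine exists_move_off hlev' ?_
    calc 2 * cnt n (A' i) ≤ 2 * (F.card * cnt n (A i)) := Nat.mul_le_mul_left _ hcnt'
      _ = 2 * F.card * cnt n (A i) := by ring
      _ ≤ Nat.card (Cn n) := hcnt
  let g : ℕ → G := fun i =>
    if h : ∃ g : G, ∀ x ∈ A' i, (g : Equiv.Perm C) x ∉ A' i then h.choose else 1
  have hg : ∀ᶠ i in (u : Filter ℕ), ∀ x ∈ A' i, (g i : Equiv.Perm C) x ∉ A' i := by
    filter_upwards [hmove] with i hi
    simp only [g, dif_pos hi]
    exact hi.choose_spec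
  have h1 : mul (mulF G) (principal (fullLang G) (el u g)) y ∈ I := hI.1.2 _ y hy
  have h2 := hall _ h1
  rw [mem_principal_mul (mulF G) _ _ (extDef₁_hat u _)] at h2
  have h3 := y.inter_mem _ h2 _ (hall y hy)
  obtain ⟨h, hh1, hh2⟩ := y.nonempty_of_mem h3
  obtain ⟨h', rfl⟩ := exists_el u h
  rw [Set.mem_ofPred_eq, mul_mem_hat] at hh1
  rw [mem_hat] at hh2
  obtain ⟨i, hi1, hi2, hi3⟩ := (hg.and (hh1.and hh2)).exists
  exact hi1 _ hi3 hi2

variable (u) in
/-- the set on which `κ = b_ν` -/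
def Phi : Set (upExt G u).carrier := intSet u (fun i => {z : G | kap z = b i (pos z)})

theorem isSmall_Exc (hu : ∀ k : ℕ, ∀ᶠ i in (u : Filter ℕ), k ≤ i) (f : ℕ → G) :
    IsSmall u (fun i => Exc (f i) i) := by
  intro k
  filter_upwards [hu k] with i hi
  refine ⟨max i (lvl (f i)), fun n hn => ?_⟩
  have h1 : i ≤ n := (le_max_left _ _).trans hn
  have h2 : IsLevel n (f i : Equiv.Perm C) :=
    (isLevel_lvl (f i)).mono ((le_max_right _ _).trans hn)
  refine ⟨levSet_Exc h2 h1, ?_⟩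
  have h3 : k ≤ 2 ^ i := hi.trans Nat.lt_two_pow_self.le
  exact (Nat.mul_le_mul_right _ h3).trans (cnt_Exc h2 h1)

/-- Step B: membership of `Φ` in almost periodic types is invariant under `G(N)`. -/
theorem Phi_invariant (hu : ∀ k : ℕ, ∀ᶠ i in (u : Filter ℕ), k ≤ i)
    (hI : IsMinimalLeftIdeal (mulF G) I)
    {y : ExtType (fullLang G) (upExt G u).carrier} (hy : y ∈ I) (g : (upExt G u).carrier) :
    {h | g * h ∈ Phi u} ∈ y.sets ↔ Phi u ∈ y.sets := by
  obtain ⟨f, rfl⟩ := exists_el u g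
  have hd : ExtDef₁ (fullLang G) (upExt G u).carrier (Phi u) := extDef₁_int u _
  have hE : hat u (fun i => Exc (f i) i) ∉ y.sets := small_notMem hI (isSmall_Exc hu f) hy
  have hE' : (hat u (fun i => Exc (f i) i))ᶜ ∈ y.sets :=
    (y.compl_mem_iff _ (extDef₁_int u _)).2 hE
  have key : ∀ h : (upExt G u).carrier, h ∉ hat u (fun i => Exc (f i) i) →
      (el u f * h ∈ Phi u ↔ h ∈ Phi u) := by
    intro h hh
    obtain ⟨h', rfl⟩ := exists_el u h
    rw [mem_hat, ← Ultrafilter.eventually_not] at hh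
    unfold Phi
    rw [el_mul, mem_intSet, mem_intSet]
    refine Filter.eventually_congr ?_
    filter_upwards [hh] with i hi
    simp only [Exc, Set.mem_ofPred_eq, not_not] at hi
    rw [kap_mul', pos_mul, hi]
    generalize b i ((f i : Equiv.Perm C) (pos (h' i))) = α
    generalize b i (pos (h' i)) = β
    generalize kap (h' i) = γ
    revert α β γ
    decide
  constructor
  · intro h
    refine y.superset_mem _ (y.inter_mem _ h _ hE') _ hd ?_
    rintro x ⟨hx1, hx2⟩
    exact (key x hx2).1 hx1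
  · intro h
    refine y.superset_mem _ (y.inter_mem _ h _ hE') _ (hd.translate (mulF G) _) ?_
    rintro x ⟨hx1, hx2⟩
    exact (key x hx2).2 hx1

theorem Phi_const (hu : ∀ k : ℕ, ∀ᶠ i in (u : Filter ℕ), k ≤ i)
    (hI : IsMinimalLeftIdeal (mulF G) I)
    {y y' : ExtType (fullLang G) (upExt G u).carrier} (hy : y ∈ I) (hy' : y' ∈ I) :
    Phi u ∈ y'.sets ↔ Phi u ∈ y.sets := by
  have hd : ExtDef₁ (fullLang G) (upExt G u).carrier (Phi u) := extDef₁_int u _
  obtain ⟨p, rfl⟩ := hI.eq_mul hy hy'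
  rw [mem_mul (mulF G) hd]
  by_cases h : Phi u ∈ y.sets
  · have : {g : (upExt G u).carrier | {h | g * h ∈ Phi u} ∈ y.sets} = Set.univ := by
      ext g
      exact ⟨fun _ => trivial, fun _ => (Phi_invariant hu hI hy g).2 h⟩
    rw [this]
    exact ⟨fun _ => h, fun _ => p.univ_mem⟩
  · have : {g : (upExt G u).carrier | {h | g * h ∈ Phi u} ∈ y.sets} = ∅ := by
      ext g
      exact ⟨fun hg => h ((Phi_invariant hu hI hy g).1 hg), fun hg => hg.elim⟩
    rw [this]
    exact ⟨fun h' => absurd h' p.empty_notMem, fun h' => absurd h' h⟩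

theorem exists_cyl (y : ExtType (fullLang G) (upExt G u).carrier) (m : ℕ) :
    ∃ c : C, hat u (fun _ => {x | Agree m c x}) ∈ y.sets := by
  classical
  by_contra hcon
  push Not at hcon
  have h1 : (⋂ a ∈ (Finset.univ : Finset (Cn m)),
      (hat u (fun _ => {x | Agree m (splice m a base) x}))ᶜ) ∈ y.sets := by
    refine y.biInter_mem _ _ fun a _ => ?_
    exact (y.compl_mem_iff _ (extDef₁_hat u _)).2 (hcon _)
  obtain ⟨h, hh⟩ := y.nonempty_of_mem h1
  obtain ⟨f, rfl⟩ := exists_el u h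
  have h2 : ∀ a : Cn m, ∀ᶠ i in (u : Filter ℕ), ¬ Agree m (splice m a base) (pos (f i)) := by
    intro a
    have := Set.mem_iInter₂.1 hh a (Finset.mem_univ a)
    rw [Set.mem_compl_iff, mem_hat, ← Ultrafilter.eventually_not] at this
    exact this
  rw [← Filter.eventually_all] at h2
  obtain ⟨i, hi⟩ := h2.exists
  exact hi (restr m (pos (f i))) (splice_restr m (pos (f i)) base)

variable (u) in
/-- the set on which `b_ν = 0` -/
def Bee : Set (upExt G u).carrier := hat u (fun i => {x | b i x = 0})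

/-- Step D: `h₁, h₂ ∈ w * I` agree on `b_ν`. -/
theorem Bee_aux (hI : IsMinimalLeftIdeal (mulF G) I)
    {w h₁ h₂ : ExtType (fullLang G) (upExt G u).carrier} (hw : w ∈ I)
    (e₁ : mul (mulF G) w h₁ = h₁) (e₂ : mul (mulF G) w h₂ = h₂)
    (hB : Bee u ∈ h₁.sets) : Bee u ∈ h₂.sets := by
  classical
  by_contra hB2
  have hBd : ExtDef₁ (fullLang G) (upExt G u).carrier (Bee u) := extDef₁_hat u _
  let P : Set (upExt G u).carrier :=
    {g | {h | g * h ∈ Bee u} ∈ h₁.sets} ∩ {g | {h | g * h ∈ Bee u} ∈ h₂.sets}ᶜ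
  have hP : P ∈ w.sets := by
    refine w.inter_mem _ ?_ _ ?_
    · rw [← mem_mul (mulF G) hBd, e₁]
      exact hB
    · rw [w.compl_mem_iff _ (extDef_shift (mulF G) h₂ hBd), ← mem_mul (mulF G) hBd, e₂]
      exact hB2
  obtain ⟨F, hF⟩ := hI.exists_finset hw hP
  have hkey : ∀ g : (upExt G u).carrier, ∃ f ∈ F,
      {h | f * g * h ∈ Bee u} ∈ h₁.sets ∧ {h | f * g * h ∈ Bee u} ∉ h₂.sets := by
    intro g
    obtain ⟨f, hf, hf'⟩ := hF _ (hI.1.2 (principal (fullLang G) g) w hw)
    refine ⟨f, hf, ?_⟩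
    have hPd : ExtDef₁ (fullLang G) (upExt G u).carrier {h | f * h ∈ P} :=
      (w.extDef P hP).translate (mulF G) f
    rw [mem_principal_mul (mulF G) _ _ hPd] at hf'
    have hd1 : ExtDef₁ (fullLang G) (upExt G u).carrier {h | f * g * h ∈ Bee u} :=
      hBd.translate (mulF G) _
    have hs : ∀ q : ExtType (fullLang G) (upExt G u).carrier,
        {z | {h | z * h ∈ {h | f * g * h ∈ Bee u}} ∈ q.sets} =
        {z | {h | (f * (g * z)) * h ∈ Bee u} ∈ q.sets} := by
      intro q
      ext z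
      simp only [Set.mem_ofPred_eq, mul_assoc]
    constructor
    · rw [← e₁, mem_mul (mulF G) hd1, hs]
      refine w.superset_mem _ hf' _ ?_ ?_
      · rw [← hs]
        exact extDef_shift (mulF G) h₁ hd1
      · intro z hz
        exact hz.1
    · rw [← e₂, mem_mul (mulF G) hd1, hs]
      intro hcon
      obtain ⟨z, hz1, hz2⟩ := w.nonempty_of_mem (w.inter_mem _ hf' _ hcon)
      exact hz1.2 hz2
  choose rep hrep using fun x : (upExt G u).carrier => exists_el u x
  let k := F.card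
  let e : F ≃ Fin k := F.equivFin
  -- the functions `x ↦ b_i (f x)`, `f ∈ F`
  let β : ℕ → Fin k → C → ZMod 2 := fun i a x =>
    b i ((rep (e.symm a : (upExt G u).carrier) i : Equiv.Perm C) x)
  let nn : ℕ → ℕ := fun i => max (max i (k + 1)) (F.sup fun f => lvl (rep f i))
  choose s hs using fun i => exists_pattern (n := nn i) (β i)
  have hlevf : ∀ i, ∀ f ∈ F, IsLevel (nn i) (rep f i : Equiv.Perm C) := by
    intro i f hf
    refine (isLevel_lvl (rep f i)).mono ?_
    exact (Finset.le_sup (f := fun f => lvl (rep f i)) hf).trans (le_max_right _ _)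
  have hPlev : ∀ i, LevSet (nn i) {x : C | ∀ a, β i a x = s i a} := by
    intro i x x' hxx' hx a
    rw [← hx a]
    refine (b_congr ?_).symm
    have h1 := hlevf i (e.symm a) (e.symm a).2
    exact ((h1.2 x x').1 hxx').mono ((le_max_left _ _).trans (le_max_left _ _))
  obtain ⟨c₁, hc₁⟩ := exists_cyl h₁ (k + 1)
  obtain ⟨c₂, hc₂⟩ := exists_cyl h₂ (k + 1)
  have hmove : ∀ i, ∃ g : G, ∀ x ∈ ({x : C | Agree (k + 1) c₁ x} ∪ {x : C | Agree (k + 1) c₂ x}),
      (g : Equiv.Perm C) x ∈ {x : C | ∀ a, β i a x = s i a} := by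
    intro i
    have hkn : k + 1 ≤ nn i := (le_max_right _ _).trans (le_max_left _ _)
    have hlevc : ∀ c : C, LevSet (nn i) {x : C | Agree (k + 1) c x} := by
      intro c x x' hxx' hx
      exact Agree.trans hx (hxx'.mono hkn)
    obtain ⟨g, _, hg⟩ := exists_move ((hlevc c₁).union (hlevc c₂)) (hPlev i) (by
      have h1 := cnt_cyl hkn c₁
      have h2 := cnt_cyl hkn c₂
      have h3 := cnt_union (nn i) {x : C | Agree (k + 1) c₁ x} {x : C | Agree (k + 1) c₂ x}
      have h4 := hs i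
      rw [pow_succ] at h1 h2
      have h5 : 2 ^ k * cnt (nn i) ({x : C | Agree (k + 1) c₁ x} ∪
          {x : C | Agree (k + 1) c₂ x}) ≤ 2 ^ k * cnt (nn i) {x : C | ∀ a, β i a x = s i a} := by
        have h6 := Nat.mul_le_mul_left (2 ^ k) h3
        nlinarith
      exact Nat.le_of_mul_le_mul_left h5 (by positivity))
    exact ⟨g, hg⟩
  choose g hg using hmove
  obtain ⟨f, hf, hf1, hf2⟩ := hkey (el u g)
  let a : Fin k := e ⟨f, hf⟩
  have hfa : f = el u (rep f) := hrep f
  have hβ : ∀ i x, (Agree (k + 1) c₁ x ∨ Agree (k + 1) c₂ x) →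
      b i ((rep f i : Equiv.Perm C) ((g i : Equiv.Perm C) x)) = s i a := by
    intro i x hx
    have h1 := hg i x hx a
    have h2 : (e.symm a : (upExt G u).carrier) = f := by
      simp only [a, Equiv.symm_apply_apply]
    simp only [β, h2] at h1
    exact h1
  rcases Ultrafilter.eventually_or.1 (Filter.Eventually.of_forall (f := (u : Filter ℕ))
    (fun i => Classical.em (s i a = 0))) with hs0 | hs1
  · -- the pattern value is `0`: then `B ∈ h₂`
    apply hf2
    refine h₂.superset_mem _ hc₂ _ (hBd.translate (mulF G) _) ?_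
    intro h hh
    obtain ⟨h', rfl⟩ := exists_el u h
    rw [mem_hat] at hh
    rw [Set.mem_ofPred_eq, hfa, el_mul, Bee, mul_mem_hat (u := u)]
    filter_upwards [hs0, hh] with i hi1 hi2
    show b i ((rep f i : Equiv.Perm C) ((g i : Equiv.Perm C) (pos (h' i)))) = 0
    rw [hβ i _ (Or.inr hi2), hi1]
  · -- the pattern value is not `0`: then `B ∉ h₁`
    obtain ⟨h, hh1, hh2⟩ := h₁.nonempty_of_mem (h₁.inter_mem _ hf1 _ hc₁)
    obtain ⟨h', rfl⟩ := exists_el u h
    rw [mem_hat] at hh2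
    rw [Set.mem_ofPred_eq, hfa, el_mul, Bee, mul_mem_hat (u := u)] at hh1
    obtain ⟨i, hi1, hi2, hi3⟩ := (hs1.and (hh2.and hh1)).exists
    apply hi1
    have h1 : b i ((rep f i : Equiv.Perm C) ((g i : Equiv.Perm C) (pos (h' i)))) = 0 := hi3
    rw [← h1, hβ i _ (Or.inl hi2)]

/-- Step E: ideal subgroups of `S_ext,G(N)` do not see `κ`. -/
theorem N_side (hu : ∀ k : ℕ, ∀ᶠ i in (u : Filter ℕ), k ≤ i)
    {H : Set (ExtType (fullLang G) (upExt G u).carrier)} (hH : IsIdealSubgroup (mulF G) H)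
    {h₁ h₂ : ExtType (fullLang G) (upExt G u).carrier} (hh₁ : h₁ ∈ H) (hh₂ : h₂ ∈ H)
    (hU : intSet u (fun _ => {z : G | kap z = 0}) ∈ h₁.sets) :
    intSet u (fun _ => {z : G | kap z = 0}) ∈ h₂.sets := by
  obtain ⟨I, w, hI, hw, hww, rfl⟩ := hH
  obtain ⟨q₁, hq₁, rfl⟩ := hh₁
  obtain ⟨q₂, hq₂, rfl⟩ := hh₂
  set h₁ := mul (mulF G) w q₁ with hh₁
  set h₂ := mul (mulF G) w q₂ with hh₂
  have e₁ : mul (mulF G) w h₁ = h₁ := by rw [hh₁, ← mul_assoc', hww]
  have e₂ : mul (mulF G) w h₂ = h₂ := by rw [hh₂, ← mul_assoc', hww]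
  have m₁ : h₁ ∈ I := hI.1.2 w q₁ hq₁
  have m₂ : h₂ ∈ I := hI.1.2 w q₂ hq₂
  have hB : Bee u ∈ h₁.sets ↔ Bee u ∈ h₂.sets :=
    ⟨Bee_aux hI hw e₁ e₂, Bee_aux hI hw e₂ e₁⟩
  have hP : Phi u ∈ h₂.sets ↔ Phi u ∈ h₁.sets := Phi_const hu hI m₁ m₂
  have hPd : ExtDef₁ (fullLang G) (upExt G u).carrier (Phi u) := extDef₁_int u _
  have hBd : ExtDef₁ (fullLang G) (upExt G u).carrier (Bee u) := extDef₁_hat u _
  -- `κ = 0` iff (`κ = b_ν` iff `b_ν = 0`)
  have key : ∀ x : (upExt G u).carrier, x ∈ intSet u (fun _ => {z : G | kap z = 0}) ↔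
      (x ∈ Phi u ↔ x ∈ Bee u) := by
    intro x
    obtain ⟨f, rfl⟩ := exists_el u x
    unfold Phi Bee
    rw [mem_intSet, mem_intSet, mem_hat]
    have h1 : ∀ i, (f i ∈ {z : G | kap z = 0}) ↔
        (f i ∈ {z : G | kap z = b i (pos z)} ↔ pos (f i) ∈ {x | b i x = 0}) := by
      intro i
      show kap (f i) = 0 ↔ (kap (f i) = b i (pos (f i)) ↔ b i (pos (f i)) = 0)
      generalize b i (pos (f i)) = α
      generalize kap (f i) = γ
      revert α γ
      decide
    constructor
    · intro h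
      constructor
      · intro h'
        filter_upwards [h, h'] with i hi hi'
        exact ((h1 i).1 hi).1 hi'
      · intro h'
        filter_upwards [h, h'] with i hi hi'
        exact ((h1 i).1 hi).2 hi'
    · intro h
      rcases Ultrafilter.eventually_or.1 (Filter.Eventually.of_forall (f := (u : Filter ℕ))
        (fun i => Classical.em (pos (f i) ∈ {x | b i x = 0}))) with h2 | h2
      · filter_upwards [h2, h.2 h2] with i hi hi'
        exact (h1 i).2 ⟨fun _ => hi, fun _ => hi'⟩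
      · have h3 : ¬ ∀ᶠ i in (u : Filter ℕ), f i ∈ {z : G | kap z = b i (pos z)} := by
          intro h4
          have h5 := h.1 h4
          obtain ⟨i, hi1, hi2⟩ := (h2.and h5).exists
          exact hi1 hi2
        rw [← Ultrafilter.eventually_not] at h3
        filter_upwards [h2, h3] with i hi hi'
        exact (h1 i).2 ⟨fun h' => absurd h' hi', fun h' => absurd h' hi⟩
  have hUd : ExtDef₁ (fullLang G) (upExt G u).carrier
    (intSet u (fun _ => {z : G | kap z = 0})) := extDef₁_int u _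
  by_cases hb : Bee u ∈ h₁.sets
  · have hp : Phi u ∈ h₁.sets := by
      refine h₁.superset_mem _ (h₁.inter_mem _ hU _ hb) _ hPd ?_
      rintro x ⟨hx1, hx2⟩
      exact ((key x).1 hx1).2 hx2
    refine h₂.superset_mem _ (h₂.inter_mem _ (hP.2 hp) _ (hB.1 hb)) _ hUd ?_
    rintro x ⟨hx1, hx2⟩
    exact (key x).2 ⟨fun _ => hx2, fun _ => hx1⟩
  · have hb' := (h₁.compl_mem_iff _ hBd).2 hb
    have hp : Phi u ∉ h₁.sets := by
      intro hp
      obtain ⟨x, ⟨hx1, hx2⟩, hx3⟩ :=
        h₁.nonempty_of_mem (h₁.inter_mem _ (h₁.inter_mem _ hU _ hp) _ hb')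
      exact hx3 (((key x).1 hx1).1 hx2)
    have hp2 : (Phi u)ᶜ ∈ h₂.sets := (h₂.compl_mem_iff _ hPd).2 fun h => hp (hP.1 h)
    have hb2 : (Bee u)ᶜ ∈ h₂.sets := (h₂.compl_mem_iff _ hBd).2 fun h => hb (hB.2 h)
    refine h₂.superset_mem _ (h₂.inter_mem _ hp2 _ hb2) _ hUd ?_
    rintro x ⟨hx1, hx2⟩
    exact (key x).2 ⟨fun h => absurd h hx1, fun h => absurd h hx2⟩

end

end Pool.Agent.Lib.MP_04f1b7_lc
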