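import Pool.Agent.Lib.MP_04f1b7_lc.Defs

/-!
# Elementary facts on minimal left ideals of `S_ext,G(M)`
-/

namespace Pool.Agent.Lib.MP_04f1b7_lc

open FirstOrder FirstOrder.Language

namespace ExtType

variable {L : FirstOrder.Language.{0, 0}} {M : Type} [L.Structure M]

/-- The external type determined by an ultrafilter on `M`. -/
def ofUltrafilter [Nonempty M] (u : Ultrafilter M) : ExtType L M where
  sets := {U | ExtDef₁ L M U ∧ U ∈ u}
  extDef _ hU := hU.1
  univ_mem := ⟨ExtDef₁.univ, Filter.univ_mem⟩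
  inter_mem := fun _ hU _ hV => ⟨hU.1.inter hV.1, Filter.inter_mem hU.2 hV.2⟩
  superset_mem := fun _ hU _ hV hUV => ⟨hV, Filter.mem_of_superset hU.2 hUV⟩
  compl_mem_iff := by
    intro U hU
    constructor
    · rintro ⟨_, h⟩ ⟨_, h'⟩
      exact (Ultrafilter.compl_mem_iff_notMem.1 h) h'
    · intro h
      exact ⟨hU.compl, Ultrafilter.compl_mem_iff_notMem.2 fun h' => h ⟨hU, h'⟩⟩

theorem mem_ofUltrafilter [Nonempty M] (u : Ultrafilter M) {U : Set M} (hU : ExtDef₁ L M U) :
    U ∈ (ofUltrafilter u : ExtType L M).sets ↔ U ∈ u :=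
  ⟨fun h => h.2, fun h => ⟨hU, h⟩⟩

variable (μ : L.Formula (Fin 3)) [Group M] [IsMulFormula μ M]

/-- The realized type of `g`. -/
def principal (L : FirstOrder.Language.{0, 0}) {M : Type} [L.Structure M] [Nonempty M] (g : M) :
    ExtType L M := ofUltrafilter (pure g)

theorem mem_principal_mul (g : M) (q : ExtType L M) {U : Set M} (hU : ExtDef₁ L M U) :
    U ∈ (mul μ (principal L g) q).sets ↔ {h | g * h ∈ U} ∈ q.sets := by
  rw [mem_mul μ hU]
  unfold principal
  rw [mem_ofUltrafilter _ (extDef_shift μ q hU), Ultrafilter.mem_pure]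
  rfl

end ExtType

section

variable {L : FirstOrder.Language.{0, 0}} {M : Type} [L.Structure M]
variable {μ : L.Formula (Fin 3)} [Group M] [IsMulFormula μ M]

open ExtType

theorem IsMinimalLeftIdeal.eq_mul {I : Set (ExtType L M)} (hI : IsMinimalLeftIdeal μ I)
    {y : ExtType L M} (hy : y ∈ I) {z : ExtType L M} (hz : z ∈ I) :
    ∃ p, z = ExtType.mul μ p y := by
  have h1 : IsLeftIdeal μ {x | ∃ p, x = ExtType.mul μ p y} := by
    refine ⟨⟨_, y, rfl⟩, ?_⟩
    rintro p _ ⟨p', rfl⟩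
    exact ⟨ExtType.mul μ p p', (mul_assoc' μ p p' y).symm⟩
  have h2 : {x | ∃ p, x = ExtType.mul μ p y} ⊆ I := by
    rintro _ ⟨p, rfl⟩
    exact hI.1.2 p y hy
  have h3 := hI.2 _ h1 h2
  rw [← h3] at hz
  exact hz

/-- If `w` lies in a minimal left ideal `I` and `P ∈ w`, then finitely many left translates of `P`
cover `I`. -/
theorem IsMinimalLeftIdeal.exists_finset {I : Set (ExtType L M)} (hI : IsMinimalLeftIdeal μ I)
    {w : ExtType L M} (hw : w ∈ I) {P : Set M} (hP : P ∈ w.sets) :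
    ∃ F : Finset M, ∀ y ∈ I, ∃ f ∈ F, {h | f * h ∈ P} ∈ y.sets := by
  classical
  have hPd : ExtDef₁ L M P := w.extDef P hP
  by_contra hcon
  push Not at hcon
  obtain ⟨y₀, hy₀⟩ := hI.1.1
  let Z : M → Set M := fun f => {g | {h | f * h ∈ P} ∉ (ExtType.mul μ (principal L g) y₀).sets}
  have hZd : ∀ f, ExtDef₁ L M (Z f) := by
    intro f
    have : Z f = {g | {h | g * h ∈ {h | f * h ∈ P}} ∈ y₀.sets}ᶜ := by
      ext g
      simp only [Z, Set.mem_ofPred_eq, Set.mem_compl_iff]
      rw [mem_principal_mul μ g y₀ (hPd.translate μ f)]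
      rfl
    rw [this]
    exact (extDef_shift μ y₀ (hPd.translate μ f)).compl
  have hZ2 : ∀ f g, g ∈ Z f ↔ {h | f * (g * h) ∈ P} ∉ y₀.sets := by
    intro f g
    simp only [Z, Set.mem_ofPred_eq]
    rw [mem_principal_mul μ g y₀ (hPd.translate μ f)]
    rfl
  have hfip : ∀ F : Finset M, (⋂ f ∈ F, Z f).Nonempty := by
    intro F
    obtain ⟨y, hyI, hy⟩ := hcon F
    obtain ⟨p, rfl⟩ := hI.eq_mul hy₀ hyI
    have : (⋂ f ∈ F, Z f) ∈ p.sets := by
      refine p.biInter_mem F Z fun f hf => ?_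
      have h1 := hy f hf
      rw [mem_mul μ (hPd.translate μ f), ← p.compl_mem_iff _
        (extDef_shift μ y₀ (hPd.translate μ f))] at h1
      refine p.superset_mem _ h1 _ (hZd f) ?_
      intro g hg
      rw [hZ2]
      exact hg
    exact p.nonempty_of_mem this
  let Fil : Filter M := Filter.generate (Set.range Z)
  have hNB : Fil.NeBot := by
    rw [Filter.generate_neBot_iff]
    intro t ht htf
    obtain ⟨F, hF⟩ : ∃ F : Finset M, t = Z '' (F : Set M) := by
      have hfin := htf.image (fun s : Set M => if h : ∃ f, Z f = s then h.choose else 1)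
      have hF2 := hfin.coe_toFinset
      refine ⟨hfin.toFinset, ?_⟩
      ext s
      constructor
      · intro hs
        obtain ⟨f, hf⟩ := ht hs
        have hex : ∃ f, Z f = s := ⟨f, hf⟩
        refine ⟨hex.choose, ?_, hex.choose_spec⟩
        rw [hF2]
        refine ⟨s, hs, ?_⟩
        simp only [dif_pos hex]
      · rintro ⟨f, hf, rfl⟩
        rw [hF2] at hf
        obtain ⟨s, hs, hs'⟩ := hf
        obtain ⟨f', hf'⟩ := ht hs
        have hex : ∃ f, Z f = s := ⟨f', hf'⟩
        simp only [dif_pos hex] at hs'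
        have := hex.choose_spec
        rw [hs'] at this
        rw [this]
        exact hs
    rw [hF, Set.sInter_image]
    exact hfip F
  let u : Ultrafilter M := Ultrafilter.of Fil
  let p : ExtType L M := ofUltrafilter u
  have hp : ∀ f, Z f ∈ p.sets := by
    intro f
    refine ⟨hZd f, ?_⟩
    have : Z f ∈ Fil := Filter.mem_generate_of_mem ⟨f, rfl⟩
    exact Ultrafilter.of_le Fil this
  have hy : ExtType.mul μ p y₀ ∈ I := hI.1.2 p y₀ hy₀
  have hnot : ∀ f, {h | f * h ∈ P} ∉ (ExtType.mul μ p y₀).sets := by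
    intro f hf
    rw [mem_mul μ (hPd.translate μ f)] at hf
    have h1 := p.inter_mem _ hf _ (hp f)
    obtain ⟨g, hg1, hg2⟩ := p.nonempty_of_mem h1
    rw [hZ2] at hg2
    exact hg2 hg1
  obtain ⟨p', hp'⟩ := hI.eq_mul hy hw
  rw [hp', mem_mul μ hPd] at hP
  obtain ⟨g, hg⟩ := p'.nonempty_of_mem hP
  exact hnot g hg

end

end Pool.Agent.Lib.MP_04f1b7_lc
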